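import Mathlib
import Pool.Agent.TH841.TR.Fin2

/-!
# Averages of 2-Selmer groups in pencils over arguments with rough values

Seat helper870.  From the average over sifted arguments (library of helper841, project TR) in short
intervals we deduce the average over the arguments `t` in `(N, N + M]` such that the values `G_i(t)`
have no prime factor in `(z, M ^ δ]`, for any fixed `δ > 0`.
-/

set_option autoImplicit false

namespace Pool.Agent.TH841.TR.N870

open Finset Polynomial Pool.Agent.W262.RK Pool.Agent.TH841.PT Pool.Agent.TH841.TR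

open Pool.Agent.H474R2.PG (rho)

open Pool.Agent.W307.SE (SN Sel SelR Loc SN_nonneg sel_fin)

/-- `G(t)` has no prime factor in `(z, y]` -/
def Rgh (G : ℤ[X]) (z : ℕ) (y : ℝ) (t : ℤ) : Prop :=
  ∀ p : ℕ, p.Prime → z < p → (p : ℝ) ≤ y → ¬ (p : ℤ) ∣ G.eval t

variable {n : Fin 3 → ℕ} {r : ℕ} {G : Fin r → ℤ[X]}

open Classical in
/-- sifted arguments, one scale -/
theorem pen_sft (hg : AV3XG) (hG : Irr G) (a : Fin 3 → ℤ) (f : ∀ k : Fin 3, Fin (n k) → ℤ[X])
    (ha : ∀ k, a k ≠ 0) (hf : Irr (fp f))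
    (hU : Pool.Agent.TH841.TR.UP a f 0 - Pool.Agent.TH841.TR.UP a f 1 =
      Pool.Agent.TH841.TR.UP a f 2)
    (hGf : ∀ i k j, ¬ Associated (f k j) (G i))
    (D : ℤ[X]) (hD : D ≠ 0) (hDf : ∀ k i, ¬ f k i ∣ D) (hDG : ∀ i, ¬ G i ∣ D)
    (hB : Bal D a f) (L : ℕ) :
    ∃ z₀ : ℕ, ∀ z, z₀ ≤ z → ∃ C : ℝ, 0 ≤ C ∧ ∀ (N : ℤ) (M : ℕ), 2 ≤ M → |N| ≤ (M : ℤ) ^ L →
      ∑ t ∈ (Ioc N (N + M)).filter (fun t => (∀ k, (D * Pool.Agent.TH841.TR.UP a f k).eval t ≠ 0) ∧
          Sft (∏ i, G i) z M t),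
        SN ((D * Pool.Agent.TH841.TR.UP a f 0).eval t) ((D * Pool.Agent.TH841.TR.UP a f 1).eval t) ≤
          C * (M / (Real.log M) ^ r) := by
  obtain ⟨m, g, a', D₂, ha', hf', hF', hfac, hgD⟩ :=
    Pool.Agent.TH841.TR.reduce a f ha hf hU D hD hDf
  have hP : ∀ k, Polynomial.C (a' k) * ∏ l ∈ fs (Pool.Agent.TH841.TR.allc n m) k,
      Pool.Agent.TH841.TR.allf g f l = Pool.Agent.TH841.TR.FP a' g f k := by
    intro k
    rw [Pool.Agent.TH841.TR.prod_allc]
    unfold Pool.Agent.TH841.TR.FP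
    rw [mul_assoc]
    rfl
  have hV : ∀ k t, Fval (Pool.Agent.TH841.TR.allc n m) a'
      (fun l => (Pool.Agent.TH841.TR.allf g f l).eval t) k =
      (Pool.Agent.TH841.TR.FP a' g f k).eval t := by
    intro k t
    rw [← hP k, eval_mul, eval_C, eval_prod]
    rfl
  have hall : Irr (Sum.elim (Pool.Agent.TH841.TR.allf g f) G) := by
    refine irr_sum hf' hG ?_
    rintro (x | i) l has
    · exact hGf l x.1 x.2 has
    · exact hDG l (has.symm.dvd.trans (hgD i))
  have hsq : Squarefree (mQ ((∏ j, Pool.Agent.TH841.TR.allf g f j) * ∏ i, G i)) := by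
    have := hall.sqf
    rw [Fintype.prod_sum_type] at this
    exact this
  obtain ⟨sp, hT, hS⟩ := tri_of hB hfac
  obtain ⟨z1, hz1⟩ := hg ((Σ k : Fin 3, Fin (n k)) ⊕ Fin m) (Pool.Agent.TH841.TR.allc n m) a'
    (Pool.Agent.TH841.TR.allf g f) sp L ha' hf' hT hS
    (by rw [hP, hP, hP]; exact hF') (∏ i, G i) hsq
  obtain ⟨z2, hz2⟩ := exp_prod GDPf.gdp hG
  refine ⟨z1 + z2, fun z hz => ?_⟩
  obtain ⟨C1, hC1⟩ := hz1 z (by omega)
  obtain ⟨C2, hC20, hC2⟩ := hz2 z (by omega)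
  simp only [hV] at hC1
  refine ⟨|C1| * C2, by positivity, fun N M hM hN => ?_⟩
  have hM0 : (0 : ℝ) ≤ M := Nat.cast_nonneg _
  have h1 : ∑ t ∈ (Ioc N (N + M)).filter (fun t =>
      (∀ k, (D * Pool.Agent.TH841.TR.UP a f k).eval t ≠ 0) ∧ Sft (∏ i, G i) z M t),
      SN ((D * Pool.Agent.TH841.TR.UP a f 0).eval t) ((D * Pool.Agent.TH841.TR.UP a f 1).eval t) ≤
      ∑ t ∈ (Ioc N (N + M)).filter (fun t =>
        (∀ k, (Pool.Agent.TH841.TR.FP a' g f k).eval t ≠ 0) ∧ Sft (∏ i, G i) z M t),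
      SN ((Pool.Agent.TH841.TR.FP a' g f 0).eval t)
        ((Pool.Agent.TH841.TR.FP a' g f 1).eval t) := by
    refine (sum_le_sum fun t ht => ?_).trans (sum_le_sum_of_subset_of_nonneg (f := fun t =>
      SN ((Pool.Agent.TH841.TR.FP a' g f 0).eval t)
        ((Pool.Agent.TH841.TR.FP a' g f 1).eval t)) ?_ fun t _ _ => SN_nonneg _ _)
    · have ht' := (mem_filter.1 ht).2.1 0
      rw [hfac, eval_mul, eval_pow] at ht'
      have hw : D₂.eval t ≠ 0 := fun h0 => ht' (by rw [h0]; ring)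
      rw [hfac, hfac, eval_mul, eval_mul, eval_pow, SN_sq hw]
    · intro t ht
      rw [mem_filter] at ht ⊢
      refine ⟨ht.1, fun k h0 => ht.2.1 k ?_, ht.2.2⟩
      rw [hfac, eval_mul, h0, zero_mul]
  refine h1.trans ((to_Ioc (fun t => SN ((Pool.Agent.TH841.TR.FP a' g f 0).eval t)
    ((Pool.Agent.TH841.TR.FP a' g f 1).eval t))
    (fun t => SN_nonneg _ _) (fun t => (∀ k, (Pool.Agent.TH841.TR.FP a' g f k).eval t ≠ 0) ∧
      Sft (∏ i, G i) z M t) N M).trans ?_)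
  refine (hC1 N M (by omega) (natAbs_le_of hN) _ (filter_subset _ _) ?_).trans ?_
  · intro t ht
    have ht' := (mem_filter.1 ht).2
    refine ⟨fun j => ?_, ht'.2⟩
    obtain ⟨k, hk⟩ : ∃ k, j ∈ fs (Pool.Agent.TH841.TR.allc n m) k := by
      unfold fs
      rcases j with ⟨k, i⟩ | i
      · exact ⟨k, mem_filter.2 ⟨mem_univ _, Or.inl rfl⟩⟩
      · exact ⟨0, mem_filter.2 ⟨mem_univ _, Or.inr rfl⟩⟩
    have h2 := ht'.1 k
    rw [← hP k, eval_mul, eval_prod] at h2
    exact (prod_ne_zero_iff.1 (right_ne_zero_of_mul h2)) j hk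
  · calc C1 * (M * Real.exp (-Sp (fun p => (rho (∏ i, G i) p : ℝ)) z M))
        ≤ |C1| * (M * Real.exp (-Sp (fun p => (rho (∏ i, G i) p : ℝ)) z M)) :=
          mul_le_mul_of_nonneg_right (le_abs_self _) (by positivity)
      _ ≤ |C1| * (M * (C2 / (Real.log M) ^ r)) :=
          mul_le_mul_of_nonneg_left (mul_le_mul_of_nonneg_left (hC2 M hM) hM0) (abs_nonneg _)
      _ = _ := by ring

lemma sum_biUnion_le' (s : Finset ℕ) (A : ℕ → Finset ℤ) (g : ℤ → ℝ) (hg : ∀ t, 0 ≤ g t) :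
    ∑ t ∈ s.biUnion A, g t ≤ ∑ j ∈ s, ∑ t ∈ A j, g t := by
  classical
  induction s using Finset.induction_on with
  | empty => simp
  | insert j s hj ih =>
    rw [biUnion_insert, sum_insert hj]
    have h1 := sum_union_inter (s₁ := A j) (s₂ := s.biUnion A) (f := g)
    have h2 : 0 ≤ ∑ t ∈ A j ∩ s.biUnion A, g t := sum_nonneg fun t _ => hg t
    linarith

/-- splitting an interval into short ones -/
lemma split_Ioc (g : ℤ → ℝ) (hg : ∀ t, 0 ≤ g t) (P : ℤ → Prop) [DecidablePred P] (N : ℤ) (M M' : ℕ)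
    (hM' : 1 ≤ M') :
    ∑ t ∈ (Ioc N (N + M)).filter P, g t ≤
      ∑ j ∈ range (M / M' + 1), ∑ t ∈ (Ioc (N + j * M') (N + j * M' + M')).filter P, g t := by
  have h1 : (Ioc N (N + M)).filter P ⊆ (range (M / M' + 1)).biUnion
      (fun j => (Ioc (N + j * M') (N + j * M' + M')).filter P) := by
    intro t ht
    rw [mem_filter, mem_Ioc] at ht
    rw [mem_biUnion]
    obtain ⟨⟨h1, h2⟩, h3⟩ := ht
    obtain ⟨u, hu⟩ : ∃ u : ℕ, t = N + 1 + u := ⟨(t - N - 1).toNat, by omega⟩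
    have hu2 : u < M := by omega
    refine ⟨u / M', mem_range.2 ?_, ?_⟩
    · have : u / M' ≤ M / M' := Nat.div_le_div_right (by omega)
      omega
    · rw [mem_filter, mem_Ioc]
      have h4 := Nat.mod_add_div u M'
      have h5 := Nat.mod_lt u (show 0 < M' by omega)
      have h6 : ((u / M' : ℕ) : ℤ) * (M' : ℤ) = (u : ℤ) - ((u % M' : ℕ) : ℤ) := by
        have : ((u % M' + M' * (u / M') : ℕ) : ℤ) = (u : ℤ) := by rw [h4]
        push_cast at this ⊢
        linarith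
      refine ⟨⟨?_, ?_⟩, h3⟩
      · rw [h6, hu]
        omega
      · rw [h6, hu]
        omega
  refine (sum_le_sum_of_subset_of_nonneg h1 fun t _ _ => hg t).trans ?_
  exact sum_biUnion_le' _ _ g hg

open Classical in
/-- **the average over the arguments with rough values** -/
theorem pen_rough (h : AV3X) (hg : AV3XG) (hG : Irr G) (a : Fin 3 → ℤ)
    (f : ∀ k : Fin 3, Fin (n k) → ℤ[X])
    (ha : ∀ k, a k ≠ 0) (hf : Irr (fp f))
    (hU : Pool.Agent.TH841.TR.UP a f 0 - Pool.Agent.TH841.TR.UP a f 1 =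
      Pool.Agent.TH841.TR.UP a f 2)
    (hGf : ∀ i k j, ¬ Associated (f k j) (G i))
    (D : ℤ[X]) (hD : D ≠ 0) (hDf : ∀ k i, ¬ f k i ∣ D) (hDG : ∀ i, ¬ G i ∣ D)
    (hB : Bal D a f) (L : ℕ) (δ : ℝ) (hδ : 0 < δ) (z : ℕ) :
    ∃ C : ℝ, 0 ≤ C ∧ ∀ (N : ℤ) (M : ℕ), 2 ≤ M → |N| ≤ (M : ℤ) ^ L →
      ∑ t ∈ (Ioc N (N + M)).filter (fun t => (∀ k, (D * Pool.Agent.TH841.TR.UP a f k).eval t ≠ 0) ∧
          Rgh (∏ i, G i) z ((M : ℝ) ^ δ) t),
        SN ((D * Pool.Agent.TH841.TR.UP a f 0).eval t) ((D * Pool.Agent.TH841.TR.UP a f 1).eval t) ≤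
          C * (M / (Real.log M) ^ r) := by
  obtain ⟨z₀, hz₀⟩ := pen_sft hg hG a f ha hf hU hGf D hD hDf hDG hB (⌈((L : ℝ) + 2) / min δ (1 / 2)⌉₊)
  obtain ⟨C1, hC10, hC1⟩ := hz₀ (max z z₀) (le_max_right _ _)
  obtain ⟨C2, hC20, hC2⟩ := Pool.Agent.TH841.TR.pen_all h a f ha hf hU D hD hDf hB L
  set d : ℝ := min δ (1 / 2) with hd
  have hd0 : 0 < d := lt_min hδ (by norm_num)
  have hd2 : d ≤ 1 / 2 := min_le_right _ _
  have hdδ : d ≤ δ := min_le_left _ _
  set B : ℕ := ⌈((L : ℝ) + 2) / d⌉₊ with hBdef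
  have hBd : (L : ℝ) + 2 ≤ d * B := by
    have : ((L : ℝ) + 2) / d ≤ B := Nat.le_ceil _
    rw [div_le_iff₀ hd0] at this
    linarith
  set S : ℤ → ℝ := fun t => SN ((D * Pool.Agent.TH841.TR.UP a f 0).eval t)
    ((D * Pool.Agent.TH841.TR.UP a f 1).eval t) with hS
  have hS0 : ∀ t, 0 ≤ S t := fun t => SN_nonneg _ _
  refine ⟨2 * C1 * (1 / d) ^ r + C2 * (1 / d) ^ r, by positivity, fun N M hM hN => ?_⟩
  have hM0 : (0 : ℝ) < M := by exact_mod_cast (by omega : 0 < M)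
  have hM1 : (1 : ℝ) ≤ M := by exact_mod_cast (by omega : 1 ≤ M)
  have hM2 : (2 : ℝ) ≤ M := by exact_mod_cast hM
  have hlM : 0 < Real.log M := Real.log_pos (by linarith)
  have hlMr : 0 < (Real.log M) ^ r := pow_pos hlM r
  rcases lt_or_ge ((M : ℝ) ^ d) 2 with hlt | hge
  · -- few arguments
    have h1 : d * Real.log M ≤ 1 := by
      have h2 : Real.log ((M : ℝ) ^ d) ≤ Real.log 2 :=
        Real.log_le_log (Real.rpow_pos_of_pos hM0 d) hlt.le
      rw [Real.log_rpow hM0] at h2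
      have := Real.log_two_lt_d9
      linarith
    have h2 : Real.log M ≤ 1 / d := by
      rw [le_div_iff₀ hd0]
      linarith
    have h3 : ∑ t ∈ (Ioc N (N + M)).filter (fun t =>
        (∀ k, (D * Pool.Agent.TH841.TR.UP a f k).eval t ≠ 0) ∧
          Rgh (∏ i, G i) z ((M : ℝ) ^ δ) t), S t ≤ C2 * M := by
      refine le_trans (sum_le_sum_of_subset_of_nonneg ?_ fun t _ _ => hS0 t) (hC2 N M (by omega) hN)
      intro t ht
      rw [mem_filter] at ht ⊢
      exact ⟨ht.1, ht.2.1⟩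
    have h4 : (Real.log M) ^ r ≤ (1 / d) ^ r := pow_le_pow_left₀ hlM.le h2 r
    have h5 : C2 * M ≤ C2 * (1 / d) ^ r * (M / (Real.log M) ^ r) := by
      rw [mul_assoc, mul_div_assoc']
      refine mul_le_mul_of_nonneg_left ?_ hC20
      rw [le_div_iff₀ hlMr]
      nlinarith
    have h6 : 0 ≤ 2 * C1 * (1 / d) ^ r * (M / (Real.log M) ^ r) := by positivity
    calc _ ≤ C2 * M := h3
      _ ≤ C2 * (1 / d) ^ r * (M / (Real.log M) ^ r) := h5
      _ ≤ _ := by
        rw [add_mul]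
        linarith
  · set M' : ℕ := ⌊(M : ℝ) ^ (2 * d)⌋₊ with hM'
    set x : ℝ := (M : ℝ) ^ d with hx
    have hxx : (M : ℝ) ^ (2 * d) = x ^ 2 := by
      rw [hx, ← Real.rpow_natCast, ← Real.rpow_mul hM0.le]
      congr 1
      push_cast
      ring
    have h1 : (M' : ℝ) ≤ x ^ 2 := by
      rw [← hxx]
      exact Nat.floor_le (Real.rpow_nonneg hM0.le _)
    have h2 : x ^ 2 < (M' : ℝ) + 1 := by
      rw [← hxx]
      exact Nat.lt_floor_add_one _
    have h3 : x ≤ M' := by nlinarith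
    have h4 : (M' : ℝ) ≤ M := by
      refine h1.trans ?_
      rw [← hxx]
      calc (M : ℝ) ^ (2 * d) ≤ (M : ℝ) ^ (1 : ℝ) :=
            Real.rpow_le_rpow_of_exponent_le hM1 (by linarith)
        _ = M := Real.rpow_one _
    have h4' : M' ≤ M := by exact_mod_cast h4
    have h5 : 2 ≤ M' := by
      have : (2 : ℝ) ≤ M' := hge.trans h3
      exact_mod_cast this
    have hlM' : d * Real.log M ≤ Real.log M' := by
      rw [← Real.log_rpow hM0]
      exact Real.log_le_log (by linarith) h3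
    have hlM'0 : 0 < d * Real.log M := mul_pos hd0 hlM
    have hM'B : (M : ℝ) ^ (L + 2) ≤ (M' : ℝ) ^ B := by
      calc (M : ℝ) ^ (L + 2) = (M : ℝ) ^ (((L + 2 : ℕ) : ℝ)) := (Real.rpow_natCast _ _).symm
        _ ≤ (M : ℝ) ^ (d * B) := Real.rpow_le_rpow_of_exponent_le hM1 (by push_cast; linarith)
        _ = x ^ B := by rw [hx, ← Real.rpow_natCast, ← Real.rpow_mul hM0.le]
        _ ≤ (M' : ℝ) ^ B := pow_le_pow_left₀ (by linarith) h3 B
    have hM'B' : M ^ (L + 2) ≤ M' ^ B := by exact_mod_cast hM'B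
    have hblock : ∀ j ∈ range (M / M' + 1), ∑ t ∈ (Ioc (N + j * M') (N + j * M' + M')).filter
        (fun t => (∀ k, (D * Pool.Agent.TH841.TR.UP a f k).eval t ≠ 0) ∧
          Rgh (∏ i, G i) z ((M : ℝ) ^ δ) t), S t ≤ C1 * (M' / (d * Real.log M) ^ r) := by
      intro j hj
      have hj' : j ≤ M / M' := by
        have := mem_range.1 hj
        omega
      have hN' : |N + (j : ℤ) * (M' : ℤ)| ≤ (M' : ℤ) ^ B := by
        have e1 : (j : ℤ) * (M' : ℤ) ≤ M := by
          have : j * M' ≤ M := (Nat.mul_le_mul_right M' hj').trans (Nat.div_mul_le_self M M')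
          exact_mod_cast this
        have e2 : |N + (j : ℤ) * (M' : ℤ)| ≤ (M : ℤ) ^ L + M := by
          refine (abs_add_le _ _).trans (add_le_add hN ?_)
          rw [abs_of_nonneg (by positivity)]
          exact e1
        have e3 : (M : ℤ) ^ L + M ≤ (M : ℤ) ^ (L + 2) := by
          have hMz : (2 : ℤ) ≤ M := by exact_mod_cast hM
          have f1 : (1 : ℤ) ≤ (M : ℤ) ^ L := one_le_pow₀ (by linarith)
          have f2 : (M : ℤ) ^ (L + 2) = (M : ℤ) ^ L * (M * M) := by ring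
          rw [f2]
          nlinarith [mul_nonneg (sub_nonneg.2 f1) (sub_nonneg.2 hMz),
            mul_nonneg (mul_nonneg (sub_nonneg.2 f1) (sub_nonneg.2 hMz)) (sub_nonneg.2 hMz)]
        have e4 : (M : ℤ) ^ (L + 2) ≤ (M' : ℤ) ^ B := by exact_mod_cast hM'B'
        linarith
      have hmain := hC1 (N + j * M') M' h5 hN'
      refine le_trans (sum_le_sum_of_subset_of_nonneg ?_ fun t _ _ => hS0 t) (hmain.trans ?_)
      · intro t ht
        rw [mem_filter] at ht ⊢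
        refine ⟨ht.1, ht.2.1, fun p hp hzp hp2 => ht.2.2 p hp ?_ ?_⟩
        · exact lt_of_le_of_lt (le_max_left _ _) hzp
        · have g1 : ((p : ℝ)) ^ 2 ≤ x ^ 2 := by
            refine le_trans ?_ h1
            exact_mod_cast hp2
          have g2 : (p : ℝ) ≤ x := by
            have hx0 : 0 ≤ x := by linarith
            exact (pow_le_pow_iff_left₀ (Nat.cast_nonneg _) hx0 (by norm_num)).1 g1
          refine g2.trans ?_
          exact Real.rpow_le_rpow_of_exponent_le hM1 hdδ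
      · refine mul_le_mul_of_nonneg_left ?_ hC10
        exact div_le_div_of_nonneg_left (Nat.cast_nonneg _) (pow_pos hlM'0 r)
          (pow_le_pow_left₀ hlM'0.le hlM' r)
    have hsum := split_Ioc S hS0 (fun t => (∀ k, (D * Pool.Agent.TH841.TR.UP a f k).eval t ≠ 0) ∧
          Rgh (∏ i, G i) z ((M : ℝ) ^ δ) t) N M M' (by omega)
    have hsum2 := sum_le_sum hblock
    rw [sum_const, card_range, nsmul_eq_mul] at hsum2
    have hK : (((M / M' + 1 : ℕ) : ℝ)) * M' ≤ 2 * M := by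
      have : (M / M' + 1) * M' ≤ 2 * M := by
        have := Nat.div_mul_le_self M M'
        nlinarith
      exact_mod_cast this
    have hfin : (((M / M' + 1 : ℕ) : ℝ)) * (C1 * (M' / (d * Real.log M) ^ r)) ≤
        2 * C1 * (1 / d) ^ r * (M / (Real.log M) ^ r) := by
      have e1 : (((M / M' + 1 : ℕ) : ℝ)) * (C1 * (M' / (d * Real.log M) ^ r)) =
          ((((M / M' + 1 : ℕ) : ℝ)) * M') * (C1 / (d * Real.log M) ^ r) := by ring
      have e2 : 2 * C1 * (1 / d) ^ r * (M / (Real.log M) ^ r) =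
          (2 * M) * (C1 / (d * Real.log M) ^ r) := by
        rw [mul_pow, one_div, inv_pow]
        field_simp
      rw [e1, e2]
      exact mul_le_mul_of_nonneg_right hK (by positivity)
    have h6 : 0 ≤ C2 * (1 / d) ^ r * (M / (Real.log M) ^ r) := by positivity
    have hall : ∑ t ∈ (Ioc N (N + M)).filter (fun t =>
        (∀ k, (D * Pool.Agent.TH841.TR.UP a f k).eval t ≠ 0) ∧
          Rgh (∏ i, G i) z ((M : ℝ) ^ δ) t), S t ≤
        (((M / M' + 1 : ℕ) : ℝ)) * (C1 * (M' / (d * Real.log M) ^ r)) := by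
      exact le_trans hsum hsum2
    refine hall.trans (hfin.trans ?_)
    rw [add_mul]
    linarith

end Pool.Agent.TH841.TR.N870
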