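import Mathlib
import Pool.Agent.N870.RG.Rough
import Pool.Agent.TH977.PW.Final

/-!
# Pencils over varying fields at almost prime arguments in short intervals

Seat helper870.
-/

set_option autoImplicit false

namespace Pool.Agent.TH841.TR.N870

open Finset Polynomial Filter Pool.Agent.TH841.PT Pool.Agent.TH841.TR

open Pool.Agent.W307.SE (SN SN_nonneg)

open Pool.Agent.W123.RU.Poly (Sys)

/-- the condition of almost primality -/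
def AlP {g : ℕ} (G : Fin g → ℤ[X]) (k : ℕ) (t : ℤ) : Prop :=
  ∀ i, ArithmeticFunction.cardFactors ((G i).eval t).natAbs ≤ k ∧
    ∀ p : ℕ, p.Prime → (p : ℤ) ∣ (G i).eval t → (t : ℝ) ^ (1 / (k : ℝ)) < (p : ℝ)

lemma ev_ne (Q : ℤ[X]) (hQ : Q ≠ 0) : ∃ X₀ : ℕ, ∀ t : ℤ, (X₀ : ℤ) < t → Q.eval t ≠ 0 := by
  classical
  obtain ⟨B, hB⟩ := Q.roots.toFinset.bddAbove
  refine ⟨B.toNat, fun t ht h0 => ?_⟩
  have h1 : t ∈ Q.roots.toFinset := by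
    rw [Multiset.mem_toFinset, mem_roots hQ]
    exact h0
  have h2 : t ≤ B := hB (Finset.mem_coe.2 h1)
  omega

open Classical in
/-- many almost prime arguments in short intervals -/
theorem many_alp {g : ℕ} [NeZero g] (G : Fin g → ℤ[X]) (hG : Sys G) (θ : ℝ) (hθ : 0 < θ)
    (hθ1 : θ ≤ 1) (Q : ℤ[X]) (hQ : Q ≠ 0) :
    ∃ k₀ : ℕ, 2 ≤ k₀ ∧ ∀ k : ℕ, k₀ ≤ k → ∃ κ : ℝ, 0 < κ ∧ ∃ X₀ : ℕ, 3 ≤ X₀ ∧ ∀ X : ℕ, X₀ ≤ X →
      ∀ Y : ℕ, (X : ℝ) ^ θ ≤ Y → Y ≤ X →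
      κ * (Y / (Real.log X) ^ g) ≤
        (((Ioc (X : ℤ) (X + Y)).filter (fun t => Q.eval t ≠ 0 ∧ AlP G k t)).card : ℝ) := by
  obtain ⟨k₀, hk₀, h⟩ := Pool.Agent.TH977.PW.final G hG
    (fun r => {n | Pool.Agent.TH977.PW.Rough G r n}) (fun k => {n : ℕ | AlP G k (n : ℤ)}) g (by simp)
    (fun r n _ h => h) (fun r n _ h1 h2 i => ⟨by
      rw [ArithmeticFunction.cardFactors_apply]
      exact h2 i, fun p hp hdvd => by
        have := h1 i p hp hdvd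
        push_cast
        exact this⟩) θ hθ hθ1
  refine ⟨k₀, hk₀, fun k hk => ?_⟩
  obtain ⟨κ, hκ, h1⟩ := (h k hk).1
  obtain ⟨X₁, hX₁⟩ := ev_ne Q hQ
  obtain ⟨X₂, hX₂⟩ := eventually_atTop.1 h1
  refine ⟨κ, hκ, X₁ + X₂ + 3, by omega, fun X hX Y hXY hYX => ?_⟩
  have h2 := hX₂ X (by omega) Y hXY hYX
  rw [mul_div_assoc] at h2
  refine h2.trans ?_
  unfold Pool.Agent.TH977.PW.N
  apply Nat.cast_le.2
  refine card_le_card_of_injOn (fun m : ℕ => (m : ℤ)) ?_ (fun a _ b _ hab => by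
    simpa using hab)
  intro m hm
  rw [Finset.mem_coe, mem_filter, mem_Ioc] at hm
  rw [Finset.mem_coe, mem_filter, mem_Ioc]
  have e1 : (X : ℤ) < (m : ℤ) := by exact_mod_cast hm.1.1
  have e2 : (m : ℤ) ≤ (X : ℤ) + Y := by exact_mod_cast hm.1.2
  refine ⟨⟨e1, e2⟩, hX₁ _ ?_, hm.2⟩
  have := hm.1.1
  push_cast
  omega

section

open Pool.Agent.TH841.NF (EF Gen)

open Pool.Agent.TH841.NF.D (HasDiv crk rk)

variable {n : Fin 3 → ℕ}

open Classical in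
/-- **pencils over varying fields at almost prime arguments in short intervals** -/
theorem penF_alp (h : AV3X) (hg : AV3XG) {g : ℕ} [NeZero g] {G : Fin g → ℤ[X]} (hG : Sys G)
    (hG' : ∀ i j, i ≠ j → ¬ Associated (G i) (G j))
    (a : Fin 3 → ℤ) (f : ∀ k : Fin 3, Fin (n k) → ℤ[X])
    (ha : ∀ k, a k ≠ 0) (hf : Irr (fp f))
    (hU : Pool.Agent.TH841.TR.UP a f 0 - Pool.Agent.TH841.TR.UP a f 1 =
      Pool.Agent.TH841.TR.UP a f 2)
    (hGf : ∀ i k j, ¬ Associated (f k j) (G i))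
    (s : ℕ) (D₀ : ℤ[X]) (hD₀ : D₀ ≠ 0) (hDf₀ : ∀ k i, ¬ f k i ∣ D₀) (hDG₀ : ∀ i, ¬ G i ∣ D₀)
    (D : Fin s → ℤ[X]) (hD : ∀ i, D i ≠ 0) (hDf : ∀ l k i, ¬ f k i ∣ D l)
    (hDG : ∀ l i, ¬ G i ∣ D l)
    (A B e1 e2 e3 : ℤ[X])
    (he : ∀ t x : ℤ, x ^ 3 + A.eval t * x + B.eval t =
      (x - e1.eval t) * (x - e2.eval t) * (x - e3.eval t))
    (h12 : e2 - e1 = D₀ * Pool.Agent.TH841.TR.UP a f 0)
    (h13 : e3 - e1 = D₀ * Pool.Agent.TH841.TR.UP a f 1)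
    (hB : ∀ T : Finset (Fin s), Bal (D₀ * ∏ i ∈ T, D i) a f) (θ : ℝ) (hθ : 0 < θ) (hθ1 : θ ≤ 1) :
    ∃ k₀ : ℕ, 2 ≤ k₀ ∧ ∀ k : ℕ, k₀ ≤ k → ∃ (κ C : ℝ) (X₀ : ℕ), 0 < κ ∧ ∀ X : ℕ, X₀ ≤ X →
      ∀ Y : ℕ, (X : ℝ) ^ θ ≤ Y → Y ≤ X → ∀ P : Finset ℤ,
      P = (Ioc (X : ℤ) (X + Y)).filter (fun t =>
        ((∀ k, (D₀ * Pool.Agent.TH841.TR.UP a f k).eval t ≠ 0) ∧
        ∀ i, (D i).eval t ≠ 0) ∧ AlP G k t) →
      κ * (Y / (Real.log X) ^ g) ≤ (P.card : ℝ) ∧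
      ∀ (F : ℤ → Type) [∀ t, Field (F t)] [∀ t, NumberField (F t)],
      (∀ t ∈ P, Gen (F t) (fun i => (D i).eval t)) →
      ∀ W : ∀ t, WeierstrassCurve (F t), (∀ t, W t = EF (A.eval t) (B.eval t) (F t)) →
      (∀ t ∈ P, BddAbove {q | HasDiv (W t) q}) ∧
      ∑ t ∈ P, ((2 : ℝ) ^ (rk (W t) + crk (W t))) ^ ((1 : ℝ) / 2 ^ s) ≤
        C * P.card ∧
      ∀ m : ℕ, ((P.filter (fun t => m ≤ rk (W t) + crk (W t))).card : ℝ) ≤
        C * P.card / ((2 : ℝ) ^ m) ^ ((1 : ℝ) / 2 ^ s) := by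
  have hG1 : Irr G := ⟨hG.irr, hG.deg, hG'⟩
  have hne : ∀ T : Finset (Fin s), D₀ * ∏ i ∈ T, D i ≠ 0 := fun T =>
    mul_ne_zero hD₀ (prod_ne_zero_iff.2 fun i _ => hD i)
  have hUne : ∀ k, Pool.Agent.TH841.TR.UP a f k ≠ 0 := fun k => by
    unfold Pool.Agent.TH841.TR.UP
    exact mul_ne_zero (by simpa using ha k) (prod_ne_zero_iff.2 fun i _ => (hf.irr ⟨k, i⟩).ne_zero)
  set Q : ℤ[X] := (∏ k, D₀ * Pool.Agent.TH841.TR.UP a f k) * ∏ i, D i with hQ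
  have hQne : Q ≠ 0 := mul_ne_zero (prod_ne_zero_iff.2 fun k _ => mul_ne_zero hD₀ (hUne k))
    (prod_ne_zero_iff.2 fun i _ => hD i)
  obtain ⟨k₀, hk₀, hk₀'⟩ := many_alp G hG θ hθ hθ1 Q hQne
  refine ⟨k₀, hk₀, fun k hk => ?_⟩
  obtain ⟨κ, hκ, X₀, hX₀, hcount⟩ := hk₀' k hk
  have hk2 : 2 ≤ k := hk₀.trans hk
  have hkr : (0 : ℝ) < k := by exact_mod_cast (by omega : 0 < k)
  choose C hC0 hC using fun T : Finset (Fin s) => pen_rough h hg hG1 a f ha hf hU hGf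
    (D₀ * ∏ i ∈ T, D i)
    (hne T) (fun k i => prod_ndvd (hf.irr ⟨k, i⟩) (hDf₀ k i) (fun l => hDf l k i) T)
    (fun i => prod_ndvd (hG1.irr i) (hDG₀ i) (fun l => hDG l i) T) (hB T) ⌈1 / θ⌉₊ (1 / (k : ℝ))
    (by positivity) 0
  have hCs : 0 ≤ ∑ T, C T := sum_nonneg fun T _ => hC0 T
  refine ⟨κ, (∑ T, C T) * (1 / θ) ^ g * (1 / κ), X₀ + ⌈(2 : ℝ) ^ (1 / θ)⌉₊, hκ,
    fun X hX Y hXY hYX P hP => ?_⟩
  have hX0 : (0 : ℝ) < X := by exact_mod_cast (by omega : 0 < X)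
  have hX1 : (1 : ℝ) < X := by exact_mod_cast (by omega : 1 < X)
  have hlX : 0 < Real.log X := Real.log_pos hX1
  have hX2 : (2 : ℝ) ≤ (X : ℝ) ^ θ := by
    have e1 : (2 : ℝ) ^ (1 / θ) ≤ X := by
      refine (Nat.le_ceil _).trans ?_
      exact_mod_cast (by omega : ⌈(2 : ℝ) ^ (1 / θ)⌉₊ ≤ X)
    calc (2 : ℝ) = ((2 : ℝ) ^ (1 / θ)) ^ θ := by
          rw [← Real.rpow_mul (by norm_num), one_div, inv_mul_cancel₀ hθ.ne', Real.rpow_one]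
      _ ≤ (X : ℝ) ^ θ := Real.rpow_le_rpow (by positivity) e1 hθ.le
  have hY2r : (2 : ℝ) ≤ Y := hX2.trans hXY
  have hY2 : 2 ≤ Y := by exact_mod_cast hY2r
  have hlY : θ * Real.log X ≤ Real.log Y := by
    rw [← Real.log_rpow hX0]
    exact Real.log_le_log (by linarith) hXY
  have hlY0 : 0 < θ * Real.log X := mul_pos hθ hlX
  have hPcard : κ * (Y / (Real.log X) ^ g) ≤ (P.card : ℝ) := by
    refine (hcount X (by omega) Y hXY hYX).trans (le_of_eq ?_)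
    congr 2
    rw [hP]
    apply filter_congr
    intro t _
    rw [hQ, eval_mul, eval_prod, eval_prod]
    constructor
    · rintro ⟨h1, h2⟩
      refine ⟨⟨fun k => ?_, fun i => ?_⟩, h2⟩
      · exact (prod_ne_zero_iff.1 (left_ne_zero_of_mul h1)) k (mem_univ k)
      · exact (prod_ne_zero_iff.1 (right_ne_zero_of_mul h1)) i (mem_univ i)
    · rintro ⟨⟨h1, h2⟩, h3⟩
      exact ⟨mul_ne_zero (prod_ne_zero_iff.2 fun k _ => h1 k) (prod_ne_zero_iff.2 fun i _ => h2 i),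
        h3⟩
  have hXL : |(X : ℤ)| ≤ (Y : ℤ) ^ ⌈1 / θ⌉₊ := by
    have e1 : (X : ℝ) ≤ (Y : ℝ) ^ ⌈1 / θ⌉₊ := by
      calc (X : ℝ) = ((X : ℝ) ^ θ) ^ (1 / θ) := by
            rw [← Real.rpow_mul hX0.le, mul_one_div, div_self hθ.ne', Real.rpow_one]
        _ ≤ (Y : ℝ) ^ (1 / θ) := Real.rpow_le_rpow (by positivity) hXY (by positivity)
        _ ≤ (Y : ℝ) ^ ((⌈1 / θ⌉₊ : ℕ) : ℝ) :=
          Real.rpow_le_rpow_of_exponent_le (by linarith) (Nat.le_ceil _)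
        _ = (Y : ℝ) ^ ⌈1 / θ⌉₊ := Real.rpow_natCast _ _
    rw [abs_of_nonneg (Int.natCast_nonneg _)]
    exact_mod_cast e1
  refine ⟨hPcard, fun F _ _ hF W hW => ?_⟩
  have hQ' : ∀ T : Finset (Fin s), ∑ t ∈ P,
      SN (((D₀ * ∏ i ∈ T, D i) * Pool.Agent.TH841.TR.UP a f 0).eval t)
        (((D₀ * ∏ i ∈ T, D i) * Pool.Agent.TH841.TR.UP a f 1).eval t) ≤
      (∑ T, C T) * (1 / θ) ^ g * (1 / κ) * P.card := by
    intro T
    have h1 := hC T X Y hY2 hXL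
    have h2 : ∑ t ∈ P,
      SN (((D₀ * ∏ i ∈ T, D i) * Pool.Agent.TH841.TR.UP a f 0).eval t)
        (((D₀ * ∏ i ∈ T, D i) * Pool.Agent.TH841.TR.UP a f 1).eval t) ≤
        C T * (Y / (Real.log Y) ^ g) := by
      refine le_trans (sum_le_sum_of_subset_of_nonneg ?_ fun t _ _ => SN_nonneg _ _) h1
      intro t ht
      rw [hP, mem_filter] at ht
      rw [mem_filter]
      refine ⟨ht.1, fun k h0 => ?_, fun p hp _ hpy hd => ?_⟩
      · rw [eval_mul, eval_mul, eval_prod] at h0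
        have h3 := ht.2.1.1 k
        rw [eval_mul] at h3
        rcases mul_eq_zero.1 h0 with h4 | h4
        · rcases mul_eq_zero.1 h4 with h5 | h5
          · exact left_ne_zero_of_mul h3 h5
          · obtain ⟨i, _, hi⟩ := prod_eq_zero_iff.1 h5
            exact ht.2.1.2 i hi
        · exact right_ne_zero_of_mul h3 h4
      · rw [eval_prod] at hd
        obtain ⟨i, _, hi⟩ := ((Nat.prime_iff_prime_int.1 hp).dvd_finsetProd_iff _).1 hd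
        have h3 := (ht.2.2 i).2 p hp hi
        have h4 : (X : ℤ) < t := (mem_Ioc.1 ht.1).1
        have h5 : (Y : ℝ) ≤ (t : ℝ) := by
          have : (Y : ℤ) ≤ t := by
            have : (Y : ℤ) ≤ X := by exact_mod_cast hYX
            linarith
          exact_mod_cast this
        have h6 : (Y : ℝ) ^ (1 / (k : ℝ)) ≤ (t : ℝ) ^ (1 / (k : ℝ)) :=
          Real.rpow_le_rpow (Nat.cast_nonneg _) h5 (by positivity)
        linarith
    have h3 : (Y : ℝ) / (Real.log Y) ^ g ≤ (1 / θ) ^ g * (Y / (Real.log X) ^ g) := by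
      calc (Y : ℝ) / (Real.log Y) ^ g ≤ Y / (θ * Real.log X) ^ g :=
            div_le_div_of_nonneg_left (Nat.cast_nonneg _) (pow_pos hlY0 g)
              (pow_le_pow_left₀ hlY0.le hlY g)
        _ = _ := by
          rw [mul_pow, one_div, inv_pow]
          field_simp
    have h4 : (Y : ℝ) / (Real.log X) ^ g ≤ 1 / κ * P.card := by
      rw [one_div, inv_mul_eq_div, le_div_iff₀ hκ]
      linarith
    have h5 : C T ≤ ∑ T, C T := single_le_sum (f := C) (fun T _ => hC0 T) (mem_univ T)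
    calc _ ≤ C T * (Y / (Real.log Y) ^ g) := h2
      _ ≤ C T * ((1 / θ) ^ g * (1 / κ * P.card)) :=
        mul_le_mul_of_nonneg_left (h3.trans (mul_le_mul_of_nonneg_left h4 (by positivity))) (hC0 T)
      _ ≤ (∑ T, C T) * ((1 / θ) ^ g * (1 / κ * P.card)) :=
        mul_le_mul_of_nonneg_right h5 (by positivity)
      _ = _ := by ring
  exact Pool.Agent.TH841.TR.penF_aux a f hU s D₀ D A B e1 e2 e3 he h12 h13 P (fun t ht => by
    rw [hP] at ht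
    exact (mem_filter.1 ht).2.1) _ hQ' F hF W hW

end

end Pool.Agent.TH841.TR.N870
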