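import Mathlib
import Pool.Agent.N870.RG.Fin
import Pool.Agent.TH841.PT.Fin2

/-!
# All moments for a fixed curve over varying fields at almost prime arguments in short intervals

Seat helper870.
-/

set_option autoImplicit false

namespace Pool.Agent.TH841.PT.N870

open Finset Polynomial Filter Pool.Agent.TH841.PT

open Pool.Agent.TH841.TR.N870 (Rgh split_Ioc AlP many_alp)

open Pool.Agent.W307.SE (SN SelR SN_nonneg)

open Pool.Agent.W123.RU.Poly (Sys)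

variable {r : ℕ}

/-- the sum of `S` over the `t` in `(N, N + M]` with the property `Q` is at most `K` -/
def Le (S : ℤ → ℝ) (Q : ℤ → Prop) (N : ℤ) (M : ℕ) (K : ℝ) : Prop :=
  ∀ T : Finset ℤ, T ⊆ Ioc N (N + M) → (∀ t ∈ T, Q t) → ∑ t ∈ T, S t ≤ K

lemma le_of_filter {S : ℤ → ℝ} (hS0 : ∀ t, 0 ≤ S t) {Q : ℤ → Prop} [DecidablePred Q] {N : ℤ}
    {M : ℕ} {K : ℝ} (h : ∑ t ∈ (Ioc N (N + M)).filter Q, S t ≤ K) : Le S Q N M K := by
  intro T hT hQ
  refine le_trans (sum_le_sum_of_subset_of_nonneg ?_ fun t _ _ => hS0 t) h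
  intro t ht
  exact mem_filter.2 ⟨hT ht, hQ t ht⟩

lemma Le.filter {S : ℤ → ℝ} {Q : ℤ → Prop} [DecidablePred Q] {N : ℤ}
    {M : ℕ} {K : ℝ} (h : Le S Q N M K) : ∑ t ∈ (Ioc N (N + M)).filter Q, S t ≤ K :=
  h _ (filter_subset _ _) fun _ ht => (mem_filter.1 ht).2

open Classical in
/-- from sifted arguments in short intervals to rough arguments -/
lemma rough_of_sft (S : ℤ → ℝ) (hS0 : ∀ t, 0 ≤ S t) (Qp : ℤ → Prop) (G : Fin r → ℤ[X])
    (h1 : ∀ B : ℕ, ∃ z₀ : ℕ, ∀ z, z₀ ≤ z → ∃ C : ℝ, 0 ≤ C ∧ ∀ (N : ℤ) (M : ℕ), 2 ≤ M →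
      |N| ≤ (M : ℤ) ^ B → Le S (fun t => Qp t ∧ Sft (∏ i, G i) z M t) N M
        (C * (M / (Real.log M) ^ r)))
    (h2 : ∀ B : ℕ, ∃ C : ℝ, 0 ≤ C ∧ ∀ (N : ℤ) (M : ℕ), 1 ≤ M → |N| ≤ (M : ℤ) ^ B →
      Le S Qp N M (C * M))
    (L : ℕ) (δ : ℝ) (hδ : 0 < δ) (z : ℕ) :
    ∃ C : ℝ, 0 ≤ C ∧ ∀ (N : ℤ) (M : ℕ), 2 ≤ M → |N| ≤ (M : ℤ) ^ L →
      Le S (fun t => Qp t ∧ Rgh (∏ i, G i) z ((M : ℝ) ^ δ) t) N M (C * (M / (Real.log M) ^ r)) := by
  obtain ⟨z₀, hz₀⟩ := h1 (⌈((L : ℝ) + 2) / min δ (1 / 2)⌉₊)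
  obtain ⟨C1, hC10, hC1⟩ := hz₀ (max z z₀) (le_max_right _ _)
  obtain ⟨C2, hC20, hC2⟩ := h2 L
  set d : ℝ := min δ (1 / 2) with hd
  have hd0 : 0 < d := lt_min hδ (by norm_num)
  have hd2 : d ≤ 1 / 2 := min_le_right _ _
  have hdδ : d ≤ δ := min_le_left _ _
  set B : ℕ := ⌈((L : ℝ) + 2) / d⌉₊ with hBdef
  have hBd : (L : ℝ) + 2 ≤ d * B := by
    have : ((L : ℝ) + 2) / d ≤ B := Nat.le_ceil _
    rw [div_le_iff₀ hd0] at this
    linarith
  refine ⟨2 * C1 * (1 / d) ^ r + C2 * (1 / d) ^ r, by positivity,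
    fun N M hM hN => le_of_filter hS0 ?_⟩
  have hM0 : (0 : ℝ) < M := by exact_mod_cast (by omega : 0 < M)
  have hM1 : (1 : ℝ) ≤ M := by exact_mod_cast (by omega : 1 ≤ M)
  have hM2 : (2 : ℝ) ≤ M := by exact_mod_cast hM
  have hlM : 0 < Real.log M := Real.log_pos (by linarith)
  have hlMr : 0 < (Real.log M) ^ r := pow_pos hlM r
  rcases lt_or_ge ((M : ℝ) ^ d) 2 with hlt | hge
  · -- few arguments
    have h1 : d * Real.log M ≤ 1 := by
      have h2 : Real.log ((M : ℝ) ^ d) ≤ Real.log 2 :=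
        Real.log_le_log (Real.rpow_pos_of_pos hM0 d) hlt.le
      rw [Real.log_rpow hM0] at h2
      have := Real.log_two_lt_d9
      linarith
    have h2 : Real.log M ≤ 1 / d := by
      rw [le_div_iff₀ hd0]
      linarith
    have h3 : ∑ t ∈ (Ioc N (N + M)).filter (fun t => Qp t ∧
          Rgh (∏ i, G i) z ((M : ℝ) ^ δ) t), S t ≤ C2 * M := by
      exact hC2 N M (by omega) hN _ (filter_subset _ _) fun t ht => (mem_filter.1 ht).2.1
    have h4 : (Real.log M) ^ r ≤ (1 / d) ^ r := pow_le_pow_left₀ hlM.le h2 r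
    have h5 : C2 * M ≤ C2 * (1 / d) ^ r * (M / (Real.log M) ^ r) := by
      rw [mul_assoc, mul_div_assoc']
      refine mul_le_mul_of_nonneg_left ?_ hC20
      rw [le_div_iff₀ hlMr]
      nlinarith
    have h6 : 0 ≤ 2 * C1 * (1 / d) ^ r * (M / (Real.log M) ^ r) := by positivity
    calc _ ≤ C2 * M := h3
      _ ≤ C2 * (1 / d) ^ r * (M / (Real.log M) ^ r) := h5
      _ ≤ _ := by
        rw [add_mul]
        linarith
  · set M' : ℕ := ⌊(M : ℝ) ^ (2 * d)⌋₊ with hM'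
    set x : ℝ := (M : ℝ) ^ d with hx
    have hxx : (M : ℝ) ^ (2 * d) = x ^ 2 := by
      rw [hx, ← Real.rpow_natCast, ← Real.rpow_mul hM0.le]
      congr 1
      push_cast
      ring
    have h1 : (M' : ℝ) ≤ x ^ 2 := by
      rw [← hxx]
      exact Nat.floor_le (Real.rpow_nonneg hM0.le _)
    have h2 : x ^ 2 < (M' : ℝ) + 1 := by
      rw [← hxx]
      exact Nat.lt_floor_add_one _
    have h3 : x ≤ M' := by nlinarith
    have h4 : (M' : ℝ) ≤ M := by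
      refine h1.trans ?_
      rw [← hxx]
      calc (M : ℝ) ^ (2 * d) ≤ (M : ℝ) ^ (1 : ℝ) :=
            Real.rpow_le_rpow_of_exponent_le hM1 (by linarith)
        _ = M := Real.rpow_one _
    have h4' : M' ≤ M := by exact_mod_cast h4
    have h5 : 2 ≤ M' := by
      have : (2 : ℝ) ≤ M' := hge.trans h3
      exact_mod_cast this
    have hlM' : d * Real.log M ≤ Real.log M' := by
      rw [← Real.log_rpow hM0]
      exact Real.log_le_log (by linarith) h3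
    have hlM'0 : 0 < d * Real.log M := mul_pos hd0 hlM
    have hM'B : (M : ℝ) ^ (L + 2) ≤ (M' : ℝ) ^ B := by
      calc (M : ℝ) ^ (L + 2) = (M : ℝ) ^ (((L + 2 : ℕ) : ℝ)) := (Real.rpow_natCast _ _).symm
        _ ≤ (M : ℝ) ^ (d * B) := Real.rpow_le_rpow_of_exponent_le hM1 (by push_cast; linarith)
        _ = x ^ B := by rw [hx, ← Real.rpow_natCast, ← Real.rpow_mul hM0.le]
        _ ≤ (M' : ℝ) ^ B := pow_le_pow_left₀ (by linarith) h3 B
    have hM'B' : M ^ (L + 2) ≤ M' ^ B := by exact_mod_cast hM'B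
    have hblock : ∀ j ∈ range (M / M' + 1), ∑ t ∈ (Ioc (N + j * M') (N + j * M' + M')).filter
        (fun t => Qp t ∧
          Rgh (∏ i, G i) z ((M : ℝ) ^ δ) t), S t ≤ C1 * (M' / (d * Real.log M) ^ r) := by
      intro j hj
      have hj' : j ≤ M / M' := by
        have := mem_range.1 hj
        omega
      have hN' : |N + (j : ℤ) * (M' : ℤ)| ≤ (M' : ℤ) ^ B := by
        have e1 : (j : ℤ) * (M' : ℤ) ≤ M := by
          have : j * M' ≤ M := (Nat.mul_le_mul_right M' hj').trans (Nat.div_mul_le_self M M')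
          exact_mod_cast this
        have e2 : |N + (j : ℤ) * (M' : ℤ)| ≤ (M : ℤ) ^ L + M := by
          refine (abs_add_le _ _).trans (add_le_add hN ?_)
          rw [abs_of_nonneg (by positivity)]
          exact e1
        have e3 : (M : ℤ) ^ L + M ≤ (M : ℤ) ^ (L + 2) := by
          have hMz : (2 : ℤ) ≤ M := by exact_mod_cast hM
          have f1 : (1 : ℤ) ≤ (M : ℤ) ^ L := one_le_pow₀ (by linarith)
          have f2 : (M : ℤ) ^ (L + 2) = (M : ℤ) ^ L * (M * M) := by ring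
          rw [f2]
          nlinarith [mul_nonneg (sub_nonneg.2 f1) (sub_nonneg.2 hMz),
            mul_nonneg (mul_nonneg (sub_nonneg.2 f1) (sub_nonneg.2 hMz)) (sub_nonneg.2 hMz)]
        have e4 : (M : ℤ) ^ (L + 2) ≤ (M' : ℤ) ^ B := by exact_mod_cast hM'B'
        linarith
      have hmain := hC1 (N + j * M') M' h5 hN'
      refine (hmain _ (filter_subset _ _) ?_).trans ?_
      · intro t ht
        rw [mem_filter] at ht
        refine ⟨ht.2.1, fun p hp hzp hp2 => ht.2.2 p hp ?_ ?_⟩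
        · exact lt_of_le_of_lt (le_max_left _ _) hzp
        · have g1 : ((p : ℝ)) ^ 2 ≤ x ^ 2 := by
            refine le_trans ?_ h1
            exact_mod_cast hp2
          have g2 : (p : ℝ) ≤ x := by
            have hx0 : 0 ≤ x := by linarith
            exact (pow_le_pow_iff_left₀ (Nat.cast_nonneg _) hx0 (by norm_num)).1 g1
          refine g2.trans ?_
          exact Real.rpow_le_rpow_of_exponent_le hM1 hdδ
      · refine mul_le_mul_of_nonneg_left ?_ hC10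
        exact div_le_div_of_nonneg_left (Nat.cast_nonneg _) (pow_pos hlM'0 r)
          (pow_le_pow_left₀ hlM'0.le hlM' r)
    have hsum := split_Ioc S hS0 (fun t => Qp t ∧
          Rgh (∏ i, G i) z ((M : ℝ) ^ δ) t) N M M' (by omega)
    have hsum2 := sum_le_sum hblock
    rw [sum_const, card_range, nsmul_eq_mul] at hsum2
    have hK : (((M / M' + 1 : ℕ) : ℝ)) * M' ≤ 2 * M := by
      have : (M / M' + 1) * M' ≤ 2 * M := by
        have := Nat.div_mul_le_self M M'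
        nlinarith
      exact_mod_cast this
    have hfin : (((M / M' + 1 : ℕ) : ℝ)) * (C1 * (M' / (d * Real.log M) ^ r)) ≤
        2 * C1 * (1 / d) ^ r * (M / (Real.log M) ^ r) := by
      have e1 : (((M / M' + 1 : ℕ) : ℝ)) * (C1 * (M' / (d * Real.log M) ^ r)) =
          ((((M / M' + 1 : ℕ) : ℝ)) * M') * (C1 / (d * Real.log M) ^ r) := by ring
      have e2 : 2 * C1 * (1 / d) ^ r * (M / (Real.log M) ^ r) =
          (2 * M) * (C1 / (d * Real.log M) ^ r) := by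
        rw [mul_pow, one_div, inv_pow]
        field_simp
      rw [e1, e2]
      exact mul_le_mul_of_nonneg_right hK (by positivity)
    have h6 : 0 ≤ C2 * (1 / d) ^ r * (M / (Real.log M) ^ r) := by positivity
    have hall : ∑ t ∈ (Ioc N (N + M)).filter (fun t => Qp t ∧
          Rgh (∏ i, G i) z ((M : ℝ) ^ δ) t), S t ≤
        (((M / M' + 1 : ℕ) : ℝ)) * (C1 * (M' / (d * Real.log M) ^ r)) := by
      exact le_trans hsum hsum2
    refine hall.trans (hfin.trans ?_)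
    rw [add_mul]
    linarith

/-- the lower bound `2` for the length -/
lemma two_le_pow {X : ℕ} {θ : ℝ} (hθ : 0 < θ) (hX : ⌈(2 : ℝ) ^ (1 / θ)⌉₊ ≤ X) :
    (2 : ℝ) ≤ (X : ℝ) ^ θ := by
  have e1 : (2 : ℝ) ^ (1 / θ) ≤ X := by
    refine (Nat.le_ceil _).trans ?_
    exact_mod_cast hX
  calc (2 : ℝ) = ((2 : ℝ) ^ (1 / θ)) ^ θ := by
        rw [← Real.rpow_mul (by norm_num), one_div, inv_mul_cancel₀ hθ.ne', Real.rpow_one]
    _ ≤ (X : ℝ) ^ θ := Real.rpow_le_rpow (by positivity) e1 hθ.le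

/-- from rough arguments to almost prime arguments -/
lemma alp_of_rough (S : ℤ → ℝ) (Qp : ℤ → Prop) (G : Fin r → ℤ[X])
    (h : ∀ (L : ℕ) (δ : ℝ), 0 < δ → ∃ C : ℝ, 0 ≤ C ∧ ∀ (N : ℤ) (M : ℕ), 2 ≤ M →
      |N| ≤ (M : ℤ) ^ L → Le S (fun t => Qp t ∧ Rgh (∏ i, G i) 0 ((M : ℝ) ^ δ) t) N M
        (C * (M / (Real.log M) ^ r))) (θ : ℝ) (hθ : 0 < θ) (k : ℕ) (hk : 1 ≤ k) :
    ∃ C : ℝ, 0 ≤ C ∧ ∀ X : ℕ, ⌈(2 : ℝ) ^ (1 / θ)⌉₊ + 2 ≤ X → ∀ Y : ℕ,
      (X : ℝ) ^ θ ≤ Y → Y ≤ X →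
      Le S (fun t => Qp t ∧ AlP G k t) X Y (C * (Y / (Real.log X) ^ r)) := by
  have hkr : (0 : ℝ) < k := by exact_mod_cast hk
  obtain ⟨C, hC0, hC⟩ := h ⌈1 / θ⌉₊ (1 / (k : ℝ)) (by positivity)
  refine ⟨C * (1 / θ) ^ r, by positivity, fun X hX Y hXY hYX T hT hT' => ?_⟩
  have hX0 : (0 : ℝ) < X := by exact_mod_cast (by omega : 0 < X)
  have hX1 : (1 : ℝ) < X := by exact_mod_cast (by omega : 1 < X)
  have hlX : 0 < Real.log X := Real.log_pos hX1
  have hX2 : (2 : ℝ) ≤ (X : ℝ) ^ θ := two_le_pow hθ (by omega)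
  have hY2r : (2 : ℝ) ≤ Y := hX2.trans hXY
  have hY2 : 2 ≤ Y := by exact_mod_cast hY2r
  have hlY : θ * Real.log X ≤ Real.log Y := by
    rw [← Real.log_rpow hX0]
    exact Real.log_le_log (by linarith) hXY
  have hlY0 : 0 < θ * Real.log X := mul_pos hθ hlX
  have hXL : |(X : ℤ)| ≤ (Y : ℤ) ^ ⌈1 / θ⌉₊ := by
    have e1 : (X : ℝ) ≤ (Y : ℝ) ^ ⌈1 / θ⌉₊ := by
      calc (X : ℝ) = ((X : ℝ) ^ θ) ^ (1 / θ) := by
            rw [← Real.rpow_mul hX0.le, mul_one_div, div_self hθ.ne', Real.rpow_one]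
        _ ≤ (Y : ℝ) ^ (1 / θ) := Real.rpow_le_rpow (by positivity) hXY (by positivity)
        _ ≤ (Y : ℝ) ^ ((⌈1 / θ⌉₊ : ℕ) : ℝ) :=
          Real.rpow_le_rpow_of_exponent_le (by linarith) (Nat.le_ceil _)
        _ = (Y : ℝ) ^ ⌈1 / θ⌉₊ := Real.rpow_natCast _ _
    rw [abs_of_nonneg (Int.natCast_nonneg _)]
    exact_mod_cast e1
  have h1 := hC X Y hY2 hXL
  have h3 : (Y : ℝ) / (Real.log Y) ^ r ≤ (1 / θ) ^ r * (Y / (Real.log X) ^ r) := by
    calc (Y : ℝ) / (Real.log Y) ^ r ≤ Y / (θ * Real.log X) ^ r :=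
          div_le_div_of_nonneg_left (Nat.cast_nonneg _) (pow_pos hlY0 r)
            (pow_le_pow_left₀ hlY0.le hlY r)
      _ = _ := by
        rw [mul_pow, one_div, inv_pow]
        field_simp
  refine (h1 T hT ?_).trans ?_
  · intro t ht
    refine ⟨(hT' t ht).1, fun p hp _ hpy hd => ?_⟩
    rw [eval_prod] at hd
    obtain ⟨i, _, hi⟩ := ((Nat.prime_iff_prime_int.1 hp).dvd_finsetProd_iff _).1 hd
    have h3 := ((hT' t ht).2 i).2 p hp hi
    have h4 : (X : ℤ) < t := (mem_Ioc.1 (hT ht)).1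
    have h5 : (Y : ℝ) ≤ (t : ℝ) := by
      have : (Y : ℤ) ≤ t := by
        have : (Y : ℤ) ≤ X := by exact_mod_cast hYX
        linarith
      exact_mod_cast this
    have h6 : (Y : ℝ) ^ (1 / (k : ℝ)) ≤ (t : ℝ) ^ (1 / (k : ℝ)) :=
      Real.rpow_le_rpow (Nat.cast_nonneg _) h5 (by positivity)
    linarith
  · calc C * (Y / (Real.log Y) ^ r) ≤ C * ((1 / θ) ^ r * (Y / (Real.log X) ^ r)) :=
        mul_le_mul_of_nonneg_left h3 hC0
      _ = _ := by ring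

open Classical in
/-- the moments over sifted arguments -/
theorem hd_sft (h : AVH SN) {G : Fin r → ℤ[X]} (hG : Irr G) (a : Fin 3 → ℤ) (ha : ∀ k, a k ≠ 0)
    (ha2 : a 0 - a 1 = a 2) (D H : ℤ[X]) (hD : 0 < D.natDegree)
    (hDG : Squarefree (mQ (D * ∏ i, G i))) (zH : ℕ)
    (hH : ∀ p : ℕ, p.Prime → zH < p → ∀ t : ℤ, (p : ℤ) ∣ H.eval t → (p : ℤ) ∣ (∏ i, G i).eval t)
    (k L : ℕ) :
    ∃ z₀ : ℕ, ∀ z, z₀ ≤ z → ∃ C : ℝ, 0 ≤ C ∧ ∀ (N : ℤ) (M : ℕ), 2 ≤ M → |N| ≤ (M : ℤ) ^ L →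
      Le (fun t => SN (a 0 * (H * D).eval t) (a 1 * (H * D).eval t) ^ k)
        (fun t => (H * D).eval t ≠ 0 ∧ Sft (∏ i, G i) z M t) N M (C * (M / (Real.log M) ^ r)) := by
  set k' := k + 2 * (D * ∏ i, G i).natDegree with hk'
  have hk2 : 2 * (D * ∏ i, G i).natDegree ≤ 4 ^ k' := by
    have h1 : k' < 4 ^ k' := Nat.lt_pow_self (by norm_num)
    omega
  obtain ⟨z1, hz1⟩ := h a D (∏ i, G i) H k' L ha ha2 hDG hD hk2 zH hH
  obtain ⟨z2, hz2⟩ := exp_prod GDPf.gdp hG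
  refine ⟨z1 + z2, fun z hz => ?_⟩
  obtain ⟨C1, hC1⟩ := hz1 z (by omega)
  obtain ⟨C2, hC20, hC2⟩ := hz2 z (by omega)
  refine ⟨|C1| * C2, by positivity, fun N M hM hN =>
    le_of_filter (fun t => pow_nonneg (SN_nonneg _ _) _) ?_⟩
  have hM0 : (0 : ℝ) ≤ M := Nat.cast_nonneg _
  have hge : ∀ t, (H * D).eval t ≠ 0 → 1 ≤ SN (a 0 * (H * D).eval t) (a 1 * (H * D).eval t) := by
    intro t ht
    refine one_le_SN (mul_ne_zero (ha 0) ht) (mul_ne_zero (ha 1) ht) ?_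
    intro h0
    have h1 : (a 0 - a 1) * (H * D).eval t = 0 := by
      rw [sub_mul, h0, sub_self]
    rw [ha2] at h1
    exact mul_ne_zero (ha 2) ht h1
  have h1 : ∑ t ∈ (Ioc N (N + M)).filter (fun t => (H * D).eval t ≠ 0 ∧ Sft (∏ i, G i) z M t),
      SN (a 0 * (H * D).eval t) (a 1 * (H * D).eval t) ^ k ≤
      ∑ t ∈ (Ioc N (N + M)).filter (fun t => (H * D).eval t ≠ 0 ∧ Sft (∏ i, G i) z M t),
      SN (a 0 * (H * D).eval t) (a 1 * (H * D).eval t) ^ k' := by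
    refine sum_le_sum fun t ht => ?_
    exact pow_le_pow_right₀ (hge t (mem_filter.1 ht).2.1) (by omega)
  refine h1.trans ((to_Ioc (fun t => SN (a 0 * (H * D).eval t) (a 1 * (H * D).eval t) ^ k')
    (fun t => pow_nonneg (SN_nonneg _ _) _) (fun t => (H * D).eval t ≠ 0 ∧
      Sft (∏ i, G i) z M t) N M).trans ?_)
  refine (hC1 N M (by omega) (natAbs_le_of hN) _ (filter_subset _ _) ?_).trans ?_
  · intro t ht
    exact (mem_filter.1 ht).2
  · calc C1 * (M * Real.exp (-Sp (fun p => (Pool.Agent.H474R2.PG.rho (∏ i, G i) p : ℝ)) z M))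
        ≤ |C1| * (M * Real.exp (-Sp (fun p =>
          (Pool.Agent.H474R2.PG.rho (∏ i, G i) p : ℝ)) z M)) :=
          mul_le_mul_of_nonneg_right (le_abs_self _) (by positivity)
      _ ≤ |C1| * (M * (C2 / (Real.log M) ^ r)) :=
          mul_le_mul_of_nonneg_left (mul_le_mul_of_nonneg_left (hC2 M hM) hM0) (abs_nonneg _)
      _ = _ := by ring

open Classical in
/-- the moments at rough arguments -/
theorem hd_rough (h : AVH SN) {G : Fin r → ℤ[X]} (hG : Irr G) (a : Fin 3 → ℤ) (ha : ∀ k, a k ≠ 0)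
    (ha2 : a 0 - a 1 = a 2) (D H : ℤ[X]) (hD : 0 < D.natDegree)
    (hDG : Squarefree (mQ (D * ∏ i, G i))) (hHD : Squarefree (mQ (H * D))) (zH : ℕ)
    (hH : ∀ p : ℕ, p.Prime → zH < p → ∀ t : ℤ, (p : ℤ) ∣ H.eval t → (p : ℤ) ∣ (∏ i, G i).eval t)
    (k L : ℕ) (δ : ℝ) (hδ : 0 < δ) (z : ℕ) :
    ∃ C : ℝ, 0 ≤ C ∧ ∀ (N : ℤ) (M : ℕ), 2 ≤ M → |N| ≤ (M : ℤ) ^ L →
      Le (fun t => SN (a 0 * (H * D).eval t) (a 1 * (H * D).eval t) ^ k)
        (fun t => (H * D).eval t ≠ 0 ∧ Rgh (∏ i, G i) z ((M : ℝ) ^ δ) t) N M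
        (C * (M / (Real.log M) ^ r)) := by
  refine rough_of_sft (fun t => SN (a 0 * (H * D).eval t) (a 1 * (H * D).eval t) ^ k)
    (fun t => pow_nonneg (SN_nonneg _ _) _) (fun t => (H * D).eval t ≠ 0) G
    (fun B => hd_sft h hG a ha ha2 D H hD hDG zH hH k B) (fun B => ?_) L δ hδ z
  obtain ⟨C, hC⟩ := sn_sq avsq a (H * D) k B ha ha2 hHD
  refine ⟨|C|, abs_nonneg _, fun N M hM hN =>
    le_of_filter (fun t => pow_nonneg (SN_nonneg _ _) _) ((hC N M hM hN).trans ?_)⟩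
  exact mul_le_mul_of_nonneg_right (le_abs_self _) (Nat.cast_nonneg _)

/-- a point where `∏ G_i` does not vanish, and the polynomial `X - m` -/
lemma exists_lin {G : Fin r → ℤ[X]} (hG : Irr G) : ∃ m : ℤ,
    Squarefree (mQ ((X - C m) * ∏ i, G i)) ∧ Squarefree (mQ (1 * (X - C m))) := by
  have hG0 : (∏ i, G i) ≠ 0 := prod_ne_zero_iff.2 fun i _ => (hG.irr i).ne_zero
  obtain ⟨m, hm⟩ : ∃ m : ℤ, (∏ i, G i).eval m ≠ 0 := by
    by_contra hcon
    push Not at hcon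
    exact hG0 (Polynomial.funext fun x => by rw [hcon x, eval_zero])
  have hirr : Irreducible (mQ (X - C m)) := by
    unfold mQ
    rw [Polynomial.map_sub, Polynomial.map_X, Polynomial.map_C]
    exact irreducible_X_sub_C _
  refine ⟨m, ?_, by rw [one_mul]; exact hirr.squarefree⟩
  unfold mQ
  rw [Polynomial.map_mul]
  refine (squarefree_mul_iff).2 ⟨?_, hirr.squarefree, hG.sqf⟩
  refine ((hirr.coprime_iff_not_dvd).2 ?_).isRelPrime
  rw [mQ, Polynomial.map_sub, Polynomial.map_X, Polynomial.map_C, dvd_iff_isRoot, IsRoot.def]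
  intro h0
  apply hm
  have h1 := Polynomial.eval_map_apply (f := Int.castRingHom ℚ) (p := ∏ i, G i) m
  rw [h0] at h1
  simpa using h1.symm

/-- the number of the almost prime arguments -/
theorem count_alp (h : AVH SN) {G : Fin r → ℤ[X]} (hG : Irr G) (θ : ℝ) (hθ : 0 < θ) (k : ℕ)
    (hk : 1 ≤ k) :
    ∃ C : ℝ, 0 ≤ C ∧ ∃ X₀ : ℕ, ∀ X : ℕ, X₀ ≤ X → ∀ Y : ℕ, (X : ℝ) ^ θ ≤ Y → Y ≤ X →
      ∀ T : Finset ℤ, T ⊆ Ioc (X : ℤ) (X + Y) → (∀ t ∈ T, AlP G k t) →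
        (T.card : ℝ) ≤ C * (Y / (Real.log X) ^ r) := by
  obtain ⟨m, hm1, hm2⟩ := exists_lin hG
  obtain ⟨C, hC0, hC⟩ := alp_of_rough
    (fun t => SN (![2, 1, 1] 0 * (1 * (X - C m) : ℤ[X]).eval t)
      (![2, 1, 1] 1 * (1 * (X - C m) : ℤ[X]).eval t) ^ 1)
    (fun t => (1 * (X - C m) : ℤ[X]).eval t ≠ 0) G
    (fun L δ hδ => hd_rough h hG ![2, 1, 1] (by intro k; fin_cases k <;> simp)
      (by simp) (X - C m) 1 (by rw [natDegree_X_sub_C]; exact one_pos) hm1 hm2 0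
      (fun p hp _ t hd => by
        rw [eval_one] at hd
        exact absurd hd (Nat.prime_iff_prime_int.1 hp).not_dvd_one) 1 L δ hδ 0) θ hθ k hk
  refine ⟨C, hC0, ⌈(2 : ℝ) ^ (1 / θ)⌉₊ + 2 + m.natAbs, fun X hX Y hXY hYX T hT hT' => ?_⟩
  have hne : ∀ t : ℤ, t ≠ m → (1 * (Polynomial.X - Polynomial.C m) : ℤ[X]).eval t ≠ 0 := by
    intro t ht
    rw [one_mul, eval_sub, eval_X, eval_C]
    exact sub_ne_zero.2 ht
  have htm : ∀ t ∈ T, t ≠ m := by
    intro t ht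
    have := (mem_Ioc.1 (hT ht)).1
    omega
  refine le_trans ?_ (hC X (by omega) Y hXY hYX T hT fun t ht => ⟨hne t (htm t ht), hT' t ht⟩)
  have h4 : (T.card : ℝ) = ∑ t ∈ T, (1 : ℝ) := by simp
  rw [h4]
  refine sum_le_sum fun t ht => ?_
  have hn := hne t (htm t ht)
  rw [pow_one]
  refine one_le_SN (mul_ne_zero (by simp) hn) (mul_ne_zero (by simp) hn) ?_
  intro h0
  have : (2 : ℤ) * (1 * (Polynomial.X - Polynomial.C m) : ℤ[X]).eval t =
    1 * (1 * (Polynomial.X - Polynomial.C m) : ℤ[X]).eval t := h0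
  apply hn
  linarith

/-- the primes dividing the values at an almost prime argument -/
lemma card_alp {G : Fin r → ℤ[X]} {k : ℕ} {t : ℤ} (ht : AlP G k t) (i : Fin r) :
    ((G i).eval t).natAbs.primeFactors.card ≤ k := by
  have h1 := (ht i).1
  rw [ArithmeticFunction.cardFactors_apply] at h1
  exact (List.toFinset_card_le _).trans h1

/-- the moments at almost prime arguments, squarefree polynomials -/
theorem sn_alp (h : AVH SN) {G : Fin r → ℤ[X]} (hG : Irr G) (a : Fin 3 → ℤ) (ha : ∀ k, a k ≠ 0)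
    (ha2 : a 0 - a 1 = a 2) (P : ℤ[X]) (hP : Squarefree (P.map (Int.castRingHom ℚ)))
    (θ : ℝ) (hθ : 0 < θ) (k : ℕ) (hk : 1 ≤ k) (j : ℕ) :
    ∃ C : ℝ, 0 ≤ C ∧ ∃ X₀ : ℕ, ∀ X : ℕ, X₀ ≤ X → ∀ Y : ℕ, (X : ℝ) ^ θ ≤ Y → Y ≤ X →
      Le (fun t => SN (a 0 * P.eval t) (a 1 * P.eval t) ^ j)
        (fun t => P.eval t ≠ 0 ∧ AlP G k t) X Y (C * (Y / (Real.log X) ^ r)) := by
  classical
  obtain ⟨S, c, hc, hPc, hS⟩ := exists_irr P hP
  set S1 : Finset ℤ[X] := S.filter (fun f => ∃ i, Associated f (G i)) with hS1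
  set S2 : Finset ℤ[X] := S.filter (fun f => ¬ ∃ i, Associated f (G i)) with hS2
  set H : ℤ[X] := C c * ∏ f ∈ S1, f with hH
  set D : ℤ[X] := ∏ f ∈ S2, f with hD
  have hPHD : P = H * D := by
    rw [hPc, hH, hD, mul_assoc]
    congr 1
    exact (prod_filter_mul_prod_filter_not S _ _).symm
  have hprim : ∀ f ∈ S, f.IsPrimitive := fun f hf => (hS f hf).1.isPrimitive (hS f hf).2.ne'
  have hirrQ : ∀ f ∈ S, Irreducible (mQ f) := fun f hf =>
    ((hprim f hf).irreducible_iff_irreducible_map_fraction_map (K := ℚ)).1 (hS f hf).1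
  have hsqD : Squarefree (mQ D) := by
    have h1 : mQ P = mQ H * mQ D := by rw [hPHD, mQ, Polynomial.map_mul]
    exact Squarefree.squarefree_of_dvd (Dvd.intro_left _ h1.symm) hP
  have hassoc : ∀ f ∈ S1, ∃ i, f = G i ∨ f = -G i := by
    intro f hf
    obtain ⟨i, hi⟩ := (mem_filter.1 hf).2
    refine ⟨i, ?_⟩
    obtain ⟨u, hu⟩ := hi.symm
    obtain ⟨w, hw, hw'⟩ := Polynomial.isUnit_iff.1 u.isUnit
    rcases Int.isUnit_iff.1 hw with h1 | h1
    · left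
      rw [← hu, ← hw', h1]
      simp
    · right
      rw [← hu, ← hw', h1]
      simp
  rcases Nat.eq_zero_or_pos D.natDegree with h0 | hpos
  · -- the values have few prime factors
    have hS20 : S2 = ∅ := by
      by_contra hne
      obtain ⟨f, hf⟩ := nonempty_iff_ne_empty.2 hne
      have h1 : D ≠ 0 := prod_ne_zero_iff.2 fun g hg => (hS g (mem_filter.1 hg).1).1.ne_zero
      have h2 : f.natDegree ≤ D.natDegree := natDegree_le_of_dvd (dvd_prod_of_mem _ hf) h1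
      have h3 := (hS f (mem_filter.1 hf).1).2
      omega
    have hD1 : D = 1 := by rw [hD, hS20, prod_empty]
    obtain ⟨C1, hC10, X₀, hC1⟩ := count_alp h hG θ hθ k hk
    set W : ℕ := (2 * a 0 * a 1 * a 2 * c).natAbs.primeFactors.card + S1.card * k + 2 with hW
    refine ⟨((4 : ℝ) ^ W) ^ j * C1, by positivity, X₀, fun X hX Y hXY hYX T hT hT' => ?_⟩
    have hb : ∀ t : ℤ, P.eval t ≠ 0 → AlP G k t →
        SN (a 0 * P.eval t) (a 1 * P.eval t) ≤ 4 ^ W := by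
      intro t ht hpr
      have hne3 : (a 0 - a 1) * P.eval t ≠ 0 := by
        rw [ha2]
        exact mul_ne_zero (ha 2) ht
      have hne : a 0 * P.eval t ≠ a 1 * P.eval t := by
        intro h1
        apply hne3
        rw [sub_mul, h1, sub_self]
      refine (SN_le (mul_ne_zero (ha 0) ht) (mul_ne_zero (ha 1) ht) hne).trans ?_
      refine pow_le_pow_right₀ (by norm_num) ?_
      rw [hW]
      refine Nat.add_le_add_right ?_ 2
      have hsub : (2 * (a 0 * P.eval t) * (a 1 * P.eval t) *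
          (a 0 * P.eval t - a 1 * P.eval t)).natAbs.primeFactors ⊆
          (2 * a 0 * a 1 * a 2 * c).natAbs.primeFactors ∪
            S1.biUnion (fun f => (f.eval t).natAbs.primeFactors) := by
        intro p hp
        have hpp := Nat.prime_of_mem_primeFactors hp
        have hpd := Int.natCast_dvd.2 (Nat.dvd_of_mem_primeFactors hp)
        have hpi := Nat.prime_iff_prime_int.1 hpp
        rw [← sub_mul, ha2] at hpd
        have hne0 : (2 * a 0 * a 1 * a 2 * c) ≠ 0 :=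
          mul_ne_zero (mul_ne_zero (mul_ne_zero (mul_ne_zero two_ne_zero (ha 0)) (ha 1)) (ha 2)) hc
        have hPe : P.eval t = c * ∏ f ∈ S1, f.eval t := by
          rw [hPHD, hD1, mul_one, hH, eval_mul, eval_C, eval_prod]
        have hcon : (p : ℤ) ∣ 2 * a 0 * a 1 * a 2 * c ∨ (p : ℤ) ∣ ∏ f ∈ S1, f.eval t := by
          have h1 : (p : ℤ) ∣ (2 * a 0 * a 1 * a 2 * c) * ((c * c) * (∏ f ∈ S1, f.eval t) ^ 3) := by
            rw [hPe] at hpd
            refine hpd.trans (dvd_of_eq ?_)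
            ring
          rcases hpi.dvd_mul.1 h1 with h2 | h2
          · exact Or.inl h2
          rcases hpi.dvd_mul.1 h2 with h3 | h3
          · rcases hpi.dvd_mul.1 h3 with h4 | h4
            · exact Or.inl (h4.mul_left _)
            · exact Or.inl (h4.mul_left _)
          · exact Or.inr (hpi.dvd_of_dvd_pow h3)
        rw [mem_union]
        rcases hcon with h1 | h1
        · left
          rw [Nat.mem_primeFactors]
          exact ⟨hpp, Int.natCast_dvd.1 h1, Int.natAbs_ne_zero.2 hne0⟩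
        · right
          obtain ⟨f, hf, hfd⟩ := (hpi.dvd_finsetProd_iff _).1 h1
          rw [mem_biUnion]
          refine ⟨f, hf, ?_⟩
          rw [Nat.mem_primeFactors]
          refine ⟨hpp, Int.natCast_dvd.1 hfd, Int.natAbs_ne_zero.2 ?_⟩
          rw [hPe] at ht
          exact prod_ne_zero_iff.1 (right_ne_zero_of_mul ht) f hf
      refine (card_le_card hsub).trans ((card_union_le _ _).trans ?_)
      refine Nat.add_le_add_left (card_biUnion_le_card_mul _ _ _ fun f hf => ?_) _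
      obtain ⟨i, hi⟩ := hassoc f hf
      have h2 : (f.eval t).natAbs = ((G i).eval t).natAbs := by
        rcases hi with hi | hi
        · rw [hi]
        · rw [hi, eval_neg, Int.natAbs_neg]
      rw [h2]
      exact card_alp hpr i
    calc ∑ t ∈ T, SN (a 0 * P.eval t) (a 1 * P.eval t) ^ j
        ≤ ∑ t ∈ T, ((4 : ℝ) ^ W) ^ j := by
          refine sum_le_sum fun t ht => ?_
          exact pow_le_pow_left₀ (SN_nonneg _ _) (hb t (hT' t ht).1 (hT' t ht).2) j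
      _ = ((4 : ℝ) ^ W) ^ j * (T.card : ℝ) := by
          rw [sum_const, nsmul_eq_mul, mul_comm]
      _ ≤ ((4 : ℝ) ^ W) ^ j * (C1 * (Y / (Real.log X) ^ r)) := by
          refine mul_le_mul_of_nonneg_left ?_ (by positivity)
          exact hC1 X hX Y hXY hYX T hT fun t ht => (hT' t ht).2
      _ = _ := by ring
  · -- the main case
    have hsq1 : Squarefree (mQ (D * ∏ i, G i)) := by
      unfold mQ
      rw [Polynomial.map_mul]
      refine (squarefree_mul_iff).2 ⟨?_, hsqD, hG.sqf⟩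
      rw [hD, Polynomial.map_prod, Polynomial.map_prod]
      refine (IsCoprime.prod_left fun f hf => IsCoprime.prod_right fun i _ => ?_).isRelPrime
      have hf' := mem_filter.1 hf
      refine ((hirrQ f hf'.1).coprime_iff_not_dvd).2 fun hd => hf'.2 ⟨i, ?_⟩
      have h1 : f ∣ G i :=
        (IsPrimitive.Int.dvd_iff_map_cast_dvd_map_cast f (G i) (hprim f hf'.1)).2 hd
      exact (hS f hf'.1).1.associated_of_dvd (hG.irr i) h1
    have hH' : ∀ p : ℕ, p.Prime → c.natAbs < p → ∀ t : ℤ, (p : ℤ) ∣ H.eval t →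
        (p : ℤ) ∣ (∏ i, G i).eval t := by
      intro p hp hz t hd
      have hpi := Nat.prime_iff_prime_int.1 hp
      rw [hH, eval_mul, eval_C, eval_prod] at hd
      rcases hpi.dvd_mul.1 hd with h1 | h1
      · exfalso
        have := Nat.le_of_dvd (Int.natAbs_pos.2 hc) (Int.natCast_dvd.1 h1)
        omega
      · obtain ⟨f, hf, hfd⟩ := (hpi.dvd_finsetProd_iff _).1 h1
        obtain ⟨i, hi⟩ := hassoc f hf
        rw [eval_prod]
        refine Dvd.dvd.trans ?_ (dvd_prod_of_mem _ (mem_univ i))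
        rcases hi with hi | hi
        · rwa [hi] at hfd
        · rwa [hi, eval_neg, dvd_neg] at hfd
    obtain ⟨C, hC0, hC⟩ := alp_of_rough
      (fun t => SN (a 0 * (H * D).eval t) (a 1 * (H * D).eval t) ^ j)
      (fun t => (H * D).eval t ≠ 0) G
      (fun L δ hδ => hd_rough h hG a ha ha2 D H hpos hsq1 (by rw [← hPHD]; exact hP) c.natAbs
        hH' j L δ hδ 0) θ hθ k hk
    rw [hPHD]
    exact ⟨C, hC0, ⌈(2 : ℝ) ^ (1 / θ)⌉₊ + 2, fun X hX Y hXY hYX => hC X hX Y hXY hYX⟩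

/-- all the moments of the 2-Selmer groups of the twists by the values of a polynomial, at almost
prime arguments -/
theorem sel_alp (h : AVH SN) {G : Fin r → ℤ[X]} (hG : Irr G) {A B e1 e2 e3 : ℤ}
    (hE : 4 * A ^ 3 + 27 * B ^ 2 ≠ 0)
    (he : ∀ x : ℤ, x ^ 3 + A * x + B = (x - e1) * (x - e2) * (x - e3)) (D : ℤ[X]) (hD : D ≠ 0)
    (θ : ℝ) (hθ : 0 < θ) (k : ℕ) (hk : 1 ≤ k) (j : ℕ) :
    ∃ C : ℝ, 0 ≤ C ∧ ∃ X₀ : ℕ, ∀ X : ℕ, X₀ ≤ X → ∀ Y : ℕ, (X : ℝ) ^ θ ≤ Y → Y ≤ X →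
      Le (fun t => ((SelR ((D.eval t) ^ 2 * A) ((D.eval t) ^ 3 * B)).ncard : ℝ) ^ j)
        (fun t => D.eval t ≠ 0 ∧ AlP G k t) X Y (C * (Y / (Real.log X) ^ r)) := by
  obtain ⟨D₁, D₂, hfac, hsq⟩ := exists_fac D hD
  obtain ⟨h12, h13, h23⟩ := Pool.Agent.TH639.SL.disc_ne hE he
  obtain ⟨C, hC0, X₀, hC⟩ := sn_alp h hG ![e2 - e1, e3 - e1, e2 - e3] (by
      intro i
      fin_cases i
      · exact h12
      · exact h13
      · exact h23)
    (by
      change (e2 - e1) - (e3 - e1) = e2 - e3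
      ring) D₁ hsq θ hθ k hk j
  refine ⟨C, hC0, X₀, fun X hX Y hXY hYX T hT hT' => le_trans ?_ (hC X hX Y hXY hYX T hT
    fun t ht => ⟨fun h0 => (hT' t ht).1 ?_, (hT' t ht).2⟩)⟩
  · refine sum_le_sum fun t ht => ?_
    refine pow_le_pow_left₀ (Nat.cast_nonneg _) ?_ j
    have := (Pool.Agent.TH841.NF.sel_tw2 hE he (c := 1) (P := D₁.eval t) (w := D₂.eval t)
      (hT' t ht).1 (by rw [one_mul, hfac, eval_mul, eval_pow])).2
    rwa [mul_one, mul_one] at this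
  · rw [hfac, eval_mul, h0, zero_mul]

section

open Pool.Agent.TH841.NF (EF Gen)

open Pool.Agent.TH841.NF.D (HasDiv crk rk)

open Classical in
/-- **the twists by `D₀(t)` over the fields `ℚ(√D₁(t), ..., √D_s(t))`, all moments at almost prime
arguments in short intervals** -/
theorem mq_alp (h : AVH SN) {g : ℕ} [NeZero g] {G : Fin g → ℤ[X]} (hG : Sys G)
    (hG' : ∀ i j, i ≠ j → ¬ Associated (G i) (G j)) {A B e₁ e₂ e₃ : ℤ}
    (hE : 4 * A ^ 3 + 27 * B ^ 2 ≠ 0)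
    (he : ∀ x : ℤ, x ^ 3 + A * x + B = (x - e₁) * (x - e₂) * (x - e₃))
    (s : ℕ) (D₀ : ℤ[X]) (hD₀ : D₀ ≠ 0) (D : Fin s → ℤ[X]) (hD : ∀ i, D i ≠ 0)
    (θ : ℝ) (hθ : 0 < θ) (hθ1 : θ ≤ 1) :
    ∃ k₀ : ℕ, 2 ≤ k₀ ∧ ∀ k : ℕ, k₀ ≤ k → ∃ κ : ℝ, 0 < κ ∧ ∀ j : ℕ, ∃ (C : ℝ) (X₀ : ℕ),
      ∀ X : ℕ, X₀ ≤ X → ∀ Y : ℕ, (X : ℝ) ^ θ ≤ Y → Y ≤ X → ∀ P : Finset ℤ,
      P = (Ioc (X : ℤ) (X + Y)).filter (fun t =>
        (D₀.eval t ≠ 0 ∧ ∀ i, (D i).eval t ≠ 0) ∧ AlP G k t) →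
      κ * (Y / (Real.log X) ^ g) ≤ (P.card : ℝ) ∧
      ∀ (F : ℤ → Type) [∀ t, Field (F t)] [∀ t, NumberField (F t)],
      (∀ t ∈ P, Gen (F t) (fun i => (D i).eval t)) →
      ∀ W : ∀ t, WeierstrassCurve (F t),
      (∀ t, W t = EF ((D₀.eval t) ^ 2 * A) ((D₀.eval t) ^ 3 * B) (F t)) →
      (∀ t ∈ P, BddAbove {q | HasDiv (W t) q}) ∧
      ∑ t ∈ P, ((2 : ℝ) ^ (rk (W t) + crk (W t))) ^ j ≤ C * P.card ∧
      ∀ n : ℕ, ((P.filter (fun t => n ≤ rk (W t) + crk (W t))).card : ℝ) ≤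
        C * P.card / 2 ^ (j * n) := by
  have hG1 : Irr G := ⟨hG.irr, hG.deg, hG'⟩
  have hne : ∀ T : Finset (Fin s), D₀ * ∏ i ∈ T, D i ≠ 0 := fun T =>
    mul_ne_zero hD₀ (prod_ne_zero_iff.2 fun i _ => hD i)
  set Q : ℤ[X] := D₀ * ∏ i, D i with hQ
  have hQne : Q ≠ 0 := mul_ne_zero hD₀ (prod_ne_zero_iff.2 fun i _ => hD i)
  obtain ⟨k₀, hk₀, hk₀'⟩ := many_alp G hG θ hθ hθ1 Q hQne
  refine ⟨k₀, hk₀, fun k hk => ?_⟩
  obtain ⟨κ, hκ, X₁, hX₁, hcount⟩ := hk₀' k hk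
  refine ⟨κ, hκ, fun j => ?_⟩
  choose C hC0 X₂ hC using fun T : Finset (Fin s) => sel_alp h hG1 hE he (D₀ * ∏ i ∈ T, D i)
    (hne T) θ hθ k (by omega) (Fintype.card (Finset (Fin s)) * j)
  have hCs : 0 ≤ ∑ T, C T := sum_nonneg fun T _ => hC0 T
  refine ⟨(∑ T, C T) * (1 / κ), X₁ + ∑ T, X₂ T, fun X hX Y hXY hYX P hP => ?_⟩
  have hX2 : ∀ T, X₂ T ≤ X := fun T => by
    have : X₂ T ≤ ∑ T, X₂ T := single_le_sum (f := X₂) (fun _ _ => Nat.zero_le _) (mem_univ T)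
    omega
  have hPmem : ∀ t ∈ P, t ∈ Ioc (X : ℤ) (X + Y) ∧ (D₀.eval t ≠ 0 ∧ ∀ i, (D i).eval t ≠ 0) ∧
      AlP G k t := fun t ht => by
    rw [hP] at ht
    exact mem_filter.1 ht
  have hPcard : κ * (Y / (Real.log X) ^ g) ≤ (P.card : ℝ) := by
    refine (hcount X (by omega) Y hXY hYX).trans (le_of_eq ?_)
    congr 2
    rw [hP]
    apply filter_congr
    intro t _
    rw [hQ, eval_mul, eval_prod]
    constructor
    · rintro ⟨h1, h2⟩
      exact ⟨⟨left_ne_zero_of_mul h1, fun i =>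
        (prod_ne_zero_iff.1 (right_ne_zero_of_mul h1)) i (mem_univ i)⟩, h2⟩
    · rintro ⟨⟨h1, h2⟩, h3⟩
      exact ⟨mul_ne_zero h1 (prod_ne_zero_iff.2 fun i _ => h2 i), h3⟩
  refine ⟨hPcard, fun F _ _ hF W hW => ?_⟩
  have h4 : (Y : ℝ) / (Real.log X) ^ g ≤ 1 / κ * P.card := by
    rw [one_div, inv_mul_eq_div, le_div_iff₀ hκ]
    linarith
  have hev : ∀ (T : Finset (Fin s)) (t : ℤ), (D₀ * ∏ i ∈ T, D i).eval t =
      D₀.eval t * ∏ i ∈ T, (D i).eval t := by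
    intro T t
    rw [eval_mul, eval_prod]
  refine Pool.Agent.TH841.NF.famN _ F W (fun t => ∏ T : Finset (Fin s),
    ((SelR (((D₀ * ∏ i ∈ T, D i).eval t) ^ 2 * A)
      (((D₀ * ∏ i ∈ T, D i).eval t) ^ 3 * B)).ncard : ℝ)) j _ ?_ ?_
  · intro t ht q hq
    have ht' := (hPmem t ht).2.1
    rw [hW t] at hq ⊢
    have hne' : ∀ T : Finset (Fin s), (D₀ * ∏ i ∈ T, D i).eval t ≠ 0 := by
      intro T
      rw [hev]
      exact mul_ne_zero ht'.1 (prod_ne_zero_iff.2 fun i _ => ht'.2 i)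
    have e2 : ∀ T : Finset (Fin s), (∏ i ∈ T, (D i).eval t) ^ 2 *
        (D₀.eval t ^ 2 * A) = ((D₀ * ∏ i ∈ T, D i).eval t) ^ 2 * A := by
      intro T
      rw [hev]
      ring
    have e3 : ∀ T : Finset (Fin s), (∏ i ∈ T, (D i).eval t) ^ 3 *
        (D₀.eval t ^ 3 * B) = ((D₀ * ∏ i ∈ T, D i).eval t) ^ 3 * B := by
      intro T
      rw [hev]
      ring
    refine Pool.Agent.TH841.NF.one_field (d := fun i => (D i).eval t) (hF t ht)
      (fun i => ht'.2 i) (Pool.Agent.TH639.SL.disc_tw ht'.1 hE) _ ?_ ?_ hq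
    · intro T
      rw [e2, e3]
      exact Pool.Agent.TH841.SH.bd_selR (Pool.Agent.TH639.SL.disc_tw (hne' T) hE)
        (Pool.Agent.TH639.SL.roots_tw he _) (Pool.Agent.TH639.SL.sel_tw hE he (hne' T)).1
    · intro T
      rw [e2, e3]
      exact Pool.Agent.W307.RG.fin_tw hE he (hne' T)
  · have h5 : ∑ t ∈ P, (∏ T : Finset (Fin s),
        ((SelR (((D₀ * ∏ i ∈ T, D i).eval t) ^ 2 * A)
        (((D₀ * ∏ i ∈ T, D i).eval t) ^ 3 * B)).ncard : ℝ)) ^ j ≤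
        ∑ T, C T * (Y / (Real.log X) ^ g) := by
      refine (sum_le_sum fun t _ => Pool.Agent.TH841.NF.prod_pow_le _
        (fun T => Nat.cast_nonneg _) j).trans ?_
      rw [sum_comm]
      refine sum_le_sum fun T _ => ?_
      refine hC T X (hX2 T) Y hXY hYX P (fun t ht => (hPmem t ht).1) fun t ht => ⟨?_, ?_⟩
      · rw [hev]
        exact mul_ne_zero (hPmem t ht).2.1.1 (prod_ne_zero_iff.2 fun i _ => (hPmem t ht).2.1.2 i)
      · exact (hPmem t ht).2.2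
    refine h5.trans ?_
    rw [← sum_mul]
    calc (∑ T, C T) * (Y / (Real.log X) ^ g) ≤ (∑ T, C T) * (1 / κ * P.card) :=
          mul_le_mul_of_nonneg_left h4 hCs
      _ = _ := by ring

end

end Pool.Agent.TH841.PT.N870
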