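import Mathlib
import Pool.Agent.TH841.PM.PenZ
import Pool.Agent.TH841.PM.Fin2

/-!
# Tails of the rank in pencils decay faster than any exponential

Seat helper870.
-/

set_option autoImplicit false

namespace Pool.Agent.TH841.PM.N870

open Finset Polynomial Pool.Agent.TH841.PM

open Pool.Agent.TH841.TR (UP fp)

open Pool.Agent.TH841.PT hiding UP fp

open Pool.Agent.TH841.SH.D (ShaTor HasDiv rk Sha Pruf)

lemma hasDiv_mono {W : WeierstrassCurve ℚ} {q q' : ℕ} (h : HasDiv W q) (hq : q' ≤ q) :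
    HasDiv W q' := by
  obtain ⟨f, hf⟩ := h
  refine ⟨f.comp
    { toFun := fun x i => if hi : i.1 < q' then x ⟨i.1, hi⟩ else 0
      map_zero' := by
        funext i
        by_cases hi : i.1 < q' <;> simp [hi]
      map_add' := by
        intro x y
        funext i
        by_cases hi : i.1 < q' <;> simp [hi] }, ?_⟩
  intro x y hxy
  have h1 := hf hxy
  funext i
  have h2 := congrFun h1 ⟨i.1, by omega⟩
  simpa using h2

variable {n : Fin 3 → ℕ}

open Classical in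
/-- **the tails** -/
theorem tails (a : Fin 3 → ℤ) (f : ∀ k : Fin 3, Fin (n k) → ℤ[X])
    (ha : ∀ k, a k ≠ 0) (hf : Irr (fp f)) (hU : UP a f 0 - UP a f 1 = UP a f 2)
    (D : ℤ[X]) (hD : D ≠ 0) (hDf : ∀ k i, ¬ f k i ∣ D)
    (hn : ∀ k, 2 * n k < n 0 + n 1 + n 2) (R : ℝ) (hR : 0 < R) (L : ℕ) :
    ∃ C : ℝ, ∀ m : ℕ, ∃ M₀ : ℕ, ∀ (N : ℤ) (M : ℕ), M₀ ≤ M → |N| ≤ (M : ℤ) ^ L →
      (((Ioc N (N + M)).filter (fun t => ∃ q : ℕ, HasDiv (EQ ((D * UP a f 0).eval t)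
        ((D * UP a f 1).eval t)) q ∧ m ≤ rk (EQ ((D * UP a f 0).eval t)
        ((D * UP a f 1).eval t)) + q)).card : ℝ) ≤ C * M / R ^ m := by
  obtain ⟨Z, hZ1, hZ2, hZ3⟩ := penZQ tavz a f ha hf hU D hD hDf hn
  obtain ⟨k, hk⟩ : ∃ k : ℕ, R ≤ 2 ^ k := by
    obtain ⟨k, hk⟩ := pow_unbounded_of_one_lt R (by norm_num : (1:ℝ) < 2)
    exact ⟨k, hk.le⟩
  obtain ⟨C, hC⟩ := hZ3 (k + 1) L
  refine ⟨|C| + 1, fun m => ?_⟩
  have hRm : 0 < R ^ m := pow_pos hR m
  obtain ⟨M₀, hM₀⟩ := hZ1 L (1 / R ^ m) (by positivity)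
  refine ⟨M₀ + 1, fun N M hM hN => ?_⟩
  obtain ⟨_, _, h3⟩ := hC N M (by omega) hN _ rfl
  have h4 := hM₀ N M (by omega) hN
  set P := (Ioc N (N + (M : ℤ))).filter (fun t => t ∉ Z) with hP
  set W : ℤ → WeierstrassCurve ℚ := fun t => EQ ((D * UP a f 0).eval t)
        ((D * UP a f 1).eval t) with hW
  have hsub : (Ioc N (N + (M : ℤ))).filter (fun t => ∃ q : ℕ, HasDiv (W t) q ∧ m ≤ rk (W t) + q) ⊆
      (Ioc N (N + (M : ℤ))).filter (fun t => t ∈ Z) ∪
        (range (m + 1)).biUnion (fun q => P.filter (fun t => m - q ≤ rk (W t) ∧ HasDiv (W t) q)) := by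
    intro t ht
    obtain ⟨ht1, q, ht2, ht3⟩ := mem_filter.1 ht
    by_cases hZ : t ∈ Z
    · exact mem_union_left _ (mem_filter.2 ⟨ht1, hZ⟩)
    · refine mem_union_right _ (mem_biUnion.2 ?_)
      by_cases hq : q ≤ m
      · exact ⟨q, mem_range.2 (by omega), mem_filter.2 ⟨mem_filter.2 ⟨ht1, hZ⟩, by omega, ht2⟩⟩
      · exact ⟨m, mem_range.2 (by omega), mem_filter.2 ⟨mem_filter.2 ⟨ht1, hZ⟩, by omega,
          hasDiv_mono ht2 (by omega)⟩⟩
  have hC0 : 0 ≤ |C| * M := by positivity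
  have h5 : ∀ q ∈ range (m + 1), ((P.filter (fun t => m - q ≤ rk (W t) ∧ HasDiv (W t) q)).card : ℝ) ≤
      |C| * M / 2 ^ ((k + 1) * m) := by
    intro q hq
    have hq' : q ≤ m := by
      have := mem_range.1 hq
      omega
    have h6 := h3 (m - q) q
    have h7 : m - q + q = m := by omega
    rw [h7] at h6
    refine h6.trans ?_
    have : C * (M : ℝ) ≤ |C| * M := mul_le_mul_of_nonneg_right (le_abs_self C) (Nat.cast_nonneg _)
    gcongr
  have h6 : (((range (m + 1)).biUnion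
      (fun q => P.filter (fun t => m - q ≤ rk (W t) ∧ HasDiv (W t) q))).card : ℝ) ≤
      |C| * M / R ^ m := by
    have h7 : (((range (m + 1)).biUnion
        (fun q => P.filter (fun t => m - q ≤ rk (W t) ∧ HasDiv (W t) q))).card : ℝ) ≤
        ∑ q ∈ range (m + 1), ((P.filter (fun t => m - q ≤ rk (W t) ∧ HasDiv (W t) q)).card : ℝ) := by
      exact_mod_cast card_biUnion_le
    refine h7.trans ((sum_le_sum h5).trans ?_)
    rw [sum_const, card_range, nsmul_eq_mul]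
    have h8 : ((m + 1 : ℕ) : ℝ) ≤ 2 ^ m := by
      have : m + 1 ≤ 2 ^ m := Nat.lt_two_pow_self
      exact_mod_cast this
    have h9 : R ^ m ≤ (2 ^ k) ^ m := pow_le_pow_left₀ hR.le hk m
    have h10 : (2 : ℝ) ^ ((k + 1) * m) = (2 ^ k) ^ m * 2 ^ m := by
      rw [← pow_mul, ← pow_add]
      congr 1
      ring
    rw [h10]
    have h11 : 0 < (2 : ℝ) ^ m := by positivity
    calc ((m + 1 : ℕ) : ℝ) * (|C| * M / ((2 ^ k) ^ m * 2 ^ m))
        ≤ 2 ^ m * (|C| * M / ((2 ^ k) ^ m * 2 ^ m)) :=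
          mul_le_mul_of_nonneg_right h8 (by positivity)
      _ = |C| * M / (2 ^ k) ^ m := by
          field_simp
      _ ≤ |C| * M / R ^ m := div_le_div_of_nonneg_left hC0 hRm h9
  have h7 : (((Ioc N (N + (M : ℤ))).filter
      (fun t => ∃ q : ℕ, HasDiv (W t) q ∧ m ≤ rk (W t) + q)).card : ℝ) ≤
      (((Ioc N (N + (M : ℤ))).filter (fun t => t ∈ Z)).card : ℝ) +
        (((range (m + 1)).biUnion
          (fun q => P.filter (fun t => m - q ≤ rk (W t) ∧ HasDiv (W t) q))).card : ℝ) := by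
    exact_mod_cast (card_le_card hsub).trans (card_union_le _ _)
  refine h7.trans ((add_le_add h4 h6).trans (le_of_eq ?_))
  ring

end Pool.Agent.TH841.PM.N870
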